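import Pool.Agent.N914.WU.FU

set_option autoImplicit false
set_option maxHeartbeats 4000000

/-!
# Polynomials on the torus (helper914)
-/

namespace Pool.Agent.N914.WU

open Finset MeasureTheory UnitAddTorus
open scoped ComplexConjugate

/-- Haar measure on the torus -/
noncomputable def haarT (r : ℕ) : Measure (UnitAddTorus (Fin r)) :=
  Measure.pi (fun _ : Fin r => (AddCircle.haarAddCircle : Measure (AddCircle (1 : ℝ))))

instance (r : ℕ) : IsProbabilityMeasure (haarT r) := by
  unfold haarT
  infer_instance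

instance (r : ℕ) : (haarT r).IsOpenPosMeasure := by
  unfold haarT
  infer_instance

theorem integral_fourier_zero (m : ℤ) (hm : m ≠ 0) :
    ∫ x : AddCircle (1 : ℝ), fourier m x ∂AddCircle.haarAddCircle = 0 :=
  integral_eq_zero_of_add_right_eq_neg (μ := AddCircle.haarAddCircle)
      (fourier_add_half_inv_index hm (by norm_num))

theorem integral_mFourier {r : ℕ} (n : Fin r → ℤ) (hn : n ≠ 0) :
    ∫ x, mFourier n x ∂(haarT r) = 0 := by
  unfold haarT
  simp only [mFourier, ContinuousMap.coe_mk]
  rw [MeasureTheory.integral_fintype_prod_eq_prod]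
  obtain ⟨i, hi⟩ := Function.ne_iff.mp hn
  exact Finset.prod_eq_zero (Finset.mem_univ i) (integral_fourier_zero (n i) hi)

/-- the point of the torus given by the values of the polynomials -/
noncomputable def pt {r : ℕ} (P : Fin r → Polynomial ℝ) (t : ℕ) : UnitAddTorus (Fin r) :=
  fun l => (((P l).eval (t : ℝ) : ℝ) : AddCircle (1 : ℝ))

theorem mFourier_pt {r : ℕ} (P : Fin r → Polynomial ℝ) (n : Fin r → ℤ) (t : ℕ) :
    mFourier n (pt P t) = e ((∑ l, (n l : ℝ) • P l).eval (t : ℝ)) := by
  simp only [mFourier, ContinuousMap.coe_mk, pt]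
  rw [Polynomial.eval_finsetSum]
  have h1 : ∀ s : Finset (Fin r), e (∑ l ∈ s, ((n l : ℝ) • P l).eval (t : ℝ)) =
      ∏ l ∈ s, e (((n l : ℝ) • P l).eval (t : ℝ)) := by
    intro s
    classical
    induction s using Finset.induction_on with
    | empty => simp [e_zero]
    | insert a s ha ih => rw [sum_insert ha, prod_insert ha, e_add, ih]
  rw [h1]
  refine prod_congr rfl fun l _ => ?_
  rw [fourier_coe_apply, e_eq]
  congr 1
  simp only [Polynomial.eval_smul, smul_eq_mul]
  push_cast
  ring

theorem fu_torus {r : ℕ} (P : Fin r → Polynomial ℝ)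
    (hP : ∀ h : Fin r → ℤ, h ≠ 0 → ∃ i, 2 ≤ i ∧ Irrational ((∑ l, (h l : ℝ) • P l).coeff i))
    (f : C(UnitAddTorus (Fin r), ℂ)) :
    FU (fun t => f (pt P t) - ∫ x, f x ∂(haarT r)) := by
  have hint : ∀ g : C(UnitAddTorus (Fin r), ℂ), Integrable (fun x => g x) (haarT r) := by
    intro g
    exact g.continuous.integrable_of_hasCompactSupport (HasCompactSupport.of_compactSpace _)
  -- trigonometric polynomials
  have hspan : ∀ g ∈ Submodule.span ℂ (Set.range (mFourier (d := Fin r))),
      FU (fun t => g (pt P t) - ∫ x, g x ∂(haarT r)) := by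
    intro g hg
    induction hg using Submodule.span_induction with
    | mem g hg =>
      obtain ⟨n, rfl⟩ := hg
      by_cases hn : n = 0
      · subst hn
        have h1 : (fun t : ℕ => mFourier (0 : Fin r → ℤ) (pt P t) -
            ∫ x, mFourier (0 : Fin r → ℤ) x ∂(haarT r)) = fun _ => 0 := by
          funext t
          rw [mFourier_zero]
          simp
        rw [h1]
        exact FU.zero
      · rw [integral_mFourier n hn]
        simp only [sub_zero, mFourier_pt]
        exact fu_poly _ (hP n hn)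
    | zero =>
      have h1 : (fun t : ℕ => (0 : C(UnitAddTorus (Fin r), ℂ)) (pt P t) -
          ∫ x, (0 : C(UnitAddTorus (Fin r), ℂ)) x ∂(haarT r)) = fun _ => 0 := by
        funext t
        simp
      rw [h1]
      exact FU.zero
    | add g g' _ _ ih ih' =>
      have h1 := ih.add ih'
      have h2 : (fun t : ℕ => g (pt P t) - ∫ x, g x ∂(haarT r) +
          (g' (pt P t) - ∫ x, g' x ∂(haarT r))) =
          fun t => (g + g') (pt P t) - ∫ x, (g + g') x ∂(haarT r) := by
        funext t
        simp only [ContinuousMap.add_apply]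
        rw [integral_add (hint g) (hint g')]
        ring
      rw [h2] at h1
      exact h1
    | smul c g _ ih =>
      have h1 := ih.smul c
      have h2 : (fun t : ℕ => c * (g (pt P t) - ∫ x, g x ∂(haarT r))) =
          fun t => (c • g) (pt P t) - ∫ x, (c • g) x ∂(haarT r) := by
        funext t
        simp only [ContinuousMap.smul_apply, smul_eq_mul]
        rw [integral_const_mul]
        ring
      rw [h2] at h1
      exact h1
  apply FU.limit
  intro ε hε
  have hf : f ∈ (Submodule.span ℂ (Set.range (mFourier (d := Fin r)))).topologicalClosure := by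
    rw [span_mFourier_closure_eq_top]
    exact Submodule.mem_top
  have hf' := Metric.mem_closure_iff.1 hf (ε / 2) (by positivity)
  obtain ⟨g, hg, hfg⟩ := hf'
  refine ⟨fun t => g (pt P t) - ∫ x, g x ∂(haarT r), hspan g hg, fun t => ?_⟩
  have h1 : ∀ x, ‖f x - g x‖ ≤ ε / 2 := by
    intro x
    rw [← dist_eq_norm]
    exact (ContinuousMap.dist_apply_le_dist x).trans hfg.le
  have h2 : ‖∫ x, f x ∂(haarT r) - ∫ x, g x ∂(haarT r)‖ ≤ ε / 2 := by
    rw [← integral_sub (hint f) (hint g)]
    have h3 := norm_integral_le_of_norm_le_const (μ := haarT r) (f := fun x => f x - g x)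
      (C := ε / 2) (Filter.Eventually.of_forall h1)
    simpa using h3
  have h4 : f (pt P t) - ∫ x, f x ∂(haarT r) - (g (pt P t) - ∫ x, g x ∂(haarT r)) =
      (f (pt P t) - g (pt P t)) - (∫ x, f x ∂(haarT r) - ∫ x, g x ∂(haarT r)) := by ring
  rw [h4]
  refine (norm_sub_le _ _).trans ?_
  linarith [h1 (pt P t)]

/-- the set `D` has a minorant with positive mean without linear correlations -/
def FMin (D : Set ℕ) : Prop := ∃ (ψ : ℕ → ℝ) (κ : ℝ), 0 < κ ∧ (∀ t, ψ t ≤ 1) ∧
  (∀ t, t ∉ D → ψ t ≤ 0) ∧ FU (fun t => (ψ t : ℂ) - κ)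

theorem fmin_poly {r : ℕ} (P : Fin r → Polynomial ℝ)
    (hP : ∀ h : Fin r → ℤ, h ≠ 0 → ∃ i, 2 ≤ i ∧ Irrational ((∑ l, (h l : ℝ) • P l).coeff i))
    (θ : UnitAddTorus (Fin r)) (ε : ℝ) (hε : 0 < ε) : FMin {t | dist (pt P t) θ < ε} := by
  obtain ⟨g, hg⟩ : ∃ g : UnitAddTorus (Fin r) → ℝ, g = fun x => max 0 (1 - dist x θ / ε) := ⟨_, rfl⟩
  have hgc : Continuous g := by
    rw [hg]
    fun_prop
  have hg0 : 0 ≤ g := by
    intro x
    rw [hg]
    exact le_max_left _ _
  have hgθ : g θ ≠ 0 := by
    rw [hg]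
    simp
  have hκ : 0 < ∫ x, g x ∂(haarT r) :=
    hgc.integral_pos_of_hasCompactSupport_nonneg_nonzero (HasCompactSupport.of_compactSpace _)
      hg0 hgθ
  refine ⟨fun t => g (pt P t), ∫ x, g x ∂(haarT r), hκ, ?_, ?_, ?_⟩
  · intro t
    rw [hg]
    simp only
    apply max_le zero_le_one
    have : 0 ≤ dist (pt P t) θ / ε := by positivity
    linarith
  · intro t ht
    rw [hg]
    simp only
    apply max_le le_rfl
    rw [Set.mem_ofPred_eq, not_lt] at ht
    have : 1 ≤ dist (pt P t) θ / ε := by
      rw [le_div_iff₀ hε]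
      linarith
    linarith
  · have h1 := fu_torus P hP ⟨fun x => (g x : ℂ), by fun_prop⟩
    simp only [ContinuousMap.coe_mk] at h1
    rw [integral_complex_ofReal] at h1
    exact h1

end Pool.Agent.N914.WU
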