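import Pool.Agent.N914.WU.Pair

set_option autoImplicit false
set_option maxHeartbeats 4000000

/-!
# Cliques (helper914)
-/

namespace Pool.Agent.N914.WU

open Finset

open Classical in
theorem clique (δ : ℝ) (hδ : 0 < δ) (hδ1 : δ ≤ 1) (m₀ : ℕ) (hm₀ : 0 < m₀) (r : ℕ → ℕ → Prop) :
    ∀ (K : ℕ) (A : ℕ → Finset ℕ), (∀ i < K, (K : ℝ) * m₀ ≤ δ ^ K * (A i).card) →
    (∀ i j, i < j → j < K → ∀ A' B' : Finset ℕ, A' ⊆ A i → B' ⊆ A j → m₀ ≤ A'.card → m₀ ≤ B'.card →
      δ * (A'.card * B'.card) ≤ (((A' ×ˢ B').filter (fun p => r p.1 p.2)).card : ℝ)) →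
    ∃ y : ℕ → ℕ, (∀ i < K, y i ∈ A i) ∧ ∀ i j, i < j → j < K → r (y i) (y j) := by
  intro K
  induction K with
  | zero =>
    intro A _ _
    exact ⟨fun _ => 0, fun i hi => absurd hi (Nat.not_lt_zero _), fun i j _ hj =>
      absurd hj (Nat.not_lt_zero _)⟩
  | succ K ih =>
    intro A hA hr
    have hm₀r : (1 : ℝ) ≤ m₀ := by exact_mod_cast hm₀
    have hcard : ∀ i < K + 1, (K + 1) * m₀ ≤ (A i).card := by
      intro i hi
      have h1 := hA i hi
      have h2 : δ ^ (K + 1) * (A i).card ≤ 1 * (A i).card :=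
        mul_le_mul_of_nonneg_right (pow_le_one₀ hδ.le hδ1) (Nat.cast_nonneg _)
      have h3 : (((K + 1) * m₀ : ℕ) : ℝ) ≤ (A i).card := by
        push_cast at h1 ⊢
        linarith
      exact_mod_cast h3
    -- the bad elements of `A 0`
    set bad : ℕ → Finset ℕ := fun j => (A 0).filter (fun a =>
      (((A j).filter (fun b => r a b)).card : ℝ) < δ * (A j).card) with hbad
    have hbadc : ∀ j, 1 ≤ j → j < K + 1 → (bad j).card < m₀ := by
      intro j hj1 hj2
      by_contra hc
      push Not at hc
      have h1 := hr 0 j (by omega) hj2 (bad j) (A j) (filter_subset _ _) (Subset.refl _) hc (by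
        have := hcard j hj2
        have h2 : 1 * m₀ ≤ (K + 1) * m₀ := Nat.mul_le_mul_right _ (by omega)
        omega)
      have h2 : (((bad j) ×ˢ (A j)).filter (fun p => r p.1 p.2)).card =
          ∑ a ∈ bad j, ((A j).filter (fun b => r a b)).card := by
        rw [card_filter, sum_product]
        refine sum_congr rfl fun a _ => ?_
        rw [card_filter]
      rw [h2] at h1
      push_cast at h1
      have h3 : ∑ a ∈ bad j, (((A j).filter (fun b => r a b)).card : ℝ) <
          ∑ a ∈ bad j, δ * (A j).card := by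
        apply sum_lt_sum_of_nonempty
        · rw [← card_pos]
          omega
        · intro a ha
          exact (mem_filter.1 ha).2
      rw [sum_const, nsmul_eq_mul] at h3
      have h4 : ((bad j).card : ℝ) * (δ * (A j).card) = δ * ((bad j).card * (A j).card) := by ring
      linarith
    obtain ⟨a₀, ha₀, hgood⟩ : ∃ a₀ ∈ A 0, ∀ j, 1 ≤ j → j < K + 1 → a₀ ∉ bad j := by
      by_contra hc
      push Not at hc
      have h1 : A 0 ⊆ (Ico 1 (K + 1)).biUnion bad := by
        intro a ha
        obtain ⟨j, hj1, hj2, hj3⟩ := hc a ha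
        exact mem_biUnion.2 ⟨j, mem_Ico.2 ⟨hj1, hj2⟩, hj3⟩
      have h2 := (card_le_card h1).trans card_biUnion_le
      have h3 : ∑ j ∈ Ico 1 (K + 1), (bad j).card ≤ ∑ j ∈ Ico 1 (K + 1), m₀ :=
        sum_le_sum fun j hj => (hbadc j (mem_Ico.1 hj).1 (mem_Ico.1 hj).2).le
      rw [sum_const, Nat.card_Ico, smul_eq_mul, Nat.add_sub_cancel] at h3
      have h4 := hcard 0 (by omega)
      have h5 : (K + 1) * m₀ = K * m₀ + m₀ := by ring
      omega
    have hdeg : ∀ j, 1 ≤ j → j < K + 1 →
        δ * (A j).card ≤ (((A j).filter (fun b => r a₀ b)).card : ℝ) := by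
      intro j hj1 hj2
      by_contra hc
      push Not at hc
      exact hgood j hj1 hj2 (mem_filter.2 ⟨ha₀, hc⟩)
    obtain ⟨y, hy1, hy2⟩ := ih (fun i => (A (i + 1)).filter (fun b => r a₀ b)) (by
      intro i hi
      have h1 := hA (i + 1) (by omega)
      have h2 := hdeg (i + 1) (by omega) (by omega)
      have h3 : δ ^ K * (δ * (A (i + 1)).card) ≤
          δ ^ K * (((A (i + 1)).filter (fun b => r a₀ b)).card : ℝ) :=
        mul_le_mul_of_nonneg_left h2 (by positivity)
      have h4 : δ ^ (K + 1) * (A (i + 1)).card = δ ^ K * (δ * (A (i + 1)).card) := by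
        rw [pow_succ]
        ring
      push_cast at h1
      have h5 : (K : ℝ) * m₀ ≤ (K + 1) * m₀ := by linarith
      linarith) (by
      intro i j hij hj A' B' hA' hB' h1 h2
      exact hr (i + 1) (j + 1) (by omega) (by omega) A' B' (hA'.trans (filter_subset _ _))
        (hB'.trans (filter_subset _ _)) h1 h2)
    refine ⟨fun i => if i = 0 then a₀ else y (i - 1), ?_, ?_⟩
    · intro i hi
      by_cases h0 : i = 0
      · subst h0
        simp only [if_true]
        exact ha₀
      · simp only [if_neg h0]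
        have h1 := hy1 (i - 1) (by omega)
        have h2 := (mem_filter.1 h1).1
        rwa [Nat.sub_add_cancel (by omega)] at h2
    · intro i j hij hj
      have hj0 : j ≠ 0 := by omega
      simp only [if_neg hj0]
      by_cases h0 : i = 0
      · subst h0
        simp only [if_true]
        have h1 := hy1 (j - 1) (by omega)
        exact (mem_filter.1 h1).2
      · simp only [if_neg h0]
        exact hy2 (i - 1) (j - 1) (by omega) (by omega)

open Classical in
/-- a set which is dense in a union of `M` blocks has many dense blocks; `K` of them which are not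
adjacent can be chosen -/
theorem dense_blocks (K M L : ℕ) (γ : ℝ) (hγ : 0 < γ) (hL : 0 < L) (hM : 2 * K ≤ γ * M)
    (S : Finset ℕ) (hS : S ⊆ range (M * L)) (hc : 2 * γ * (M * L) ≤ S.card) :
    ∃ g : ℕ → ℕ, (∀ i j, i < j → j < K → g i + 2 ≤ g j) ∧ ∀ i < K, g i < M ∧
      γ * L ≤ ((S.filter (fun s => s ∈ Ico (g i * L) (g i * L + L))).card : ℝ) := by
  set Bl : ℕ → Finset ℕ := fun b => S.filter (fun s => s ∈ Ico (b * L) (b * L + L)) with hBl
  set good : Finset ℕ := (range M).filter (fun b => γ * L ≤ ((Bl b).card : ℝ)) with hgood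
  have hcount : S.card ≤ ∑ b ∈ range M, (Bl b).card := by
    have h1 : S ⊆ (range M).biUnion Bl := by
      intro s hs
      rw [mem_biUnion]
      have h2 := mem_range.1 (hS hs)
      refine ⟨s / L, mem_range.2 ((Nat.div_lt_iff_lt_mul hL).2 h2), ?_⟩
      rw [hBl]
      simp only [mem_filter, mem_Ico]
      have h3 := Nat.div_add_mod s L
      have h4 := Nat.mod_lt s hL
      rw [mul_comm L] at h3
      exact ⟨hs, by omega, by omega⟩
    exact (card_le_card h1).trans card_biUnion_le
  have hblock : ∀ b, (Bl b).card ≤ L := by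
    intro b
    have h1 : Bl b ⊆ Ico (b * L) (b * L + L) := fun s hs => (mem_filter.1 hs).2
    have h2 := card_le_card h1
    rw [Nat.card_Ico] at h2
    omega
  have hgoodc : 2 * K ≤ good.card := by
    have h1 : (∑ b ∈ range M, ((Bl b).card : ℝ)) ≤ ∑ b ∈ range M, (γ * L +
        if γ * L ≤ ((Bl b).card : ℝ) then (L : ℝ) else 0) := by
      refine sum_le_sum fun b _ => ?_
      split_ifs with h
      · have h2 : ((Bl b).card : ℝ) ≤ L := by exact_mod_cast hblock b
        have h3 : 0 ≤ γ * L := by positivity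
        linarith
      · push Not at h
        linarith
    rw [sum_add_distrib, sum_const, card_range, nsmul_eq_mul, ← sum_filter, sum_const,
      nsmul_eq_mul] at h1
    have h2 : (S.card : ℝ) ≤ ∑ b ∈ range M, ((Bl b).card : ℝ) := by exact_mod_cast hcount
    have h3 : γ * (M * L) ≤ good.card * L := by
      have h4 : (M : ℝ) * (γ * L) = γ * (M * L) := by ring
      rw [h4] at h1
      have h5 : (good.card : ℝ) * L = ((filter (fun b => γ * L ≤ ((Bl b).card : ℝ)) (range M)).card : ℝ) * L := rfl
      linarith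
    have hLr : (0 : ℝ) < L := by exact_mod_cast hL
    have h6 : γ * M ≤ good.card := by
      have h7 : γ * M * L ≤ good.card * L := by
        rw [mul_assoc]
        exact h3
      exact le_of_mul_le_mul_right h7 hLr
    have h8 : ((2 * K : ℕ) : ℝ) ≤ good.card := by
      push_cast
      linarith
    exact_mod_cast h8
  obtain ⟨T, hTs, hTc⟩ := exists_subset_card_eq hgoodc
  set em := T.orderEmbOfFin hTc with hem
  have hT : ∀ a, em a < M ∧ γ * L ≤ ((Bl (em a)).card : ℝ) := by
    intro a
    have h1 := hTs (orderEmbOfFin_mem T hTc a)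
    rw [hgood, mem_filter, mem_range] at h1
    exact h1
  refine ⟨fun i => if h : i < K then em ⟨2 * i, by omega⟩ else 0, ?_, ?_⟩
  · intro i j hij hj
    have hi : i < K := by omega
    simp only [dif_pos hi, dif_pos hj]
    have h1 : em ⟨2 * i, by omega⟩ < em ⟨2 * i + 1, by omega⟩ := by
      apply em.strictMono
      rw [Fin.mk_lt_mk]
      omega
    have h2 : em ⟨2 * i + 1, by omega⟩ < em ⟨2 * j, by omega⟩ := by
      apply em.strictMono
      rw [Fin.mk_lt_mk]
      omega
    omega
  · intro i hi
    simp only [dif_pos hi]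
    exact hT _

end Pool.Agent.N914.WU
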