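import Pool.Agent.N914.WU.EngineP
import Pool.Agent.N914.WU.Clique
import Pool.Agent.TH709.RGap.DeuberMain

set_option autoImplicit false
set_option maxHeartbeats 4000000

/-!
# The criterion (helper914)
-/

namespace Pool.Agent.N914.WU

open Finset Filter
open Pool.Agent.H256R2.SC (ff)
open Pool.Agent.H312R2.RG

open Classical in
theorem sub_block (H H₁ : ℕ) (hH₁ : 0 < H₁) (hle : H₁ ≤ H) (F : Finset ℕ) (hF : F ⊆ range H) (δ : ℝ)
    (hδ : 0 < δ) (hc : δ * H ≤ F.card) : ∃ b : ℕ,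
    δ / 2 * H₁ ≤ ((F.filter (fun s => s ∈ Ico (b * H₁) (b * H₁ + H₁))).card : ℝ) := by
  by_contra hcon
  push Not at hcon
  have h1 : F ⊆ (range (H / H₁ + 1)).biUnion
      (fun b => F.filter (fun s => s ∈ Ico (b * H₁) (b * H₁ + H₁))) := by
    intro s hs
    rw [mem_biUnion]
    have h2 := mem_range.1 (hF hs)
    refine ⟨s / H₁, mem_range.2 ?_, ?_⟩
    · have := Nat.div_le_div_right (c := H₁) h2.le
      omega
    · rw [mem_filter, mem_Ico]
      have h3 := Nat.div_add_mod s H₁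
      have h4 := Nat.mod_lt s hH₁
      rw [mul_comm H₁] at h3
      exact ⟨hs, by omega, by omega⟩
  have h2 := (card_le_card h1).trans card_biUnion_le
  have h3 : (F.card : ℝ) ≤ ∑ b ∈ range (H / H₁ + 1),
      ((F.filter (fun s => s ∈ Ico (b * H₁) (b * H₁ + H₁))).card : ℝ) := by exact_mod_cast h2
  have h4 : ∑ b ∈ range (H / H₁ + 1),
      ((F.filter (fun s => s ∈ Ico (b * H₁) (b * H₁ + H₁))).card : ℝ) <
      ∑ b ∈ range (H / H₁ + 1), δ / 2 * H₁ := by
    apply sum_lt_sum_of_nonempty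
    · exact ⟨0, mem_range.2 (Nat.succ_pos _)⟩
    · intro b _
      exact hcon b
  rw [sum_const, card_range, nsmul_eq_mul] at h4
  have h5 : (H / H₁ + 1) * H₁ ≤ 2 * H := by
    have h6 := Nat.div_mul_le_self H H₁
    rw [add_mul, one_mul]
    omega
  have h6 : (((H / H₁ + 1 : ℕ) : ℝ)) * H₁ ≤ 2 * H := by exact_mod_cast h5
  have h7 : (((H / H₁ + 1 : ℕ) : ℝ)) * (δ / 2 * H₁) = δ / 2 * ((((H / H₁ + 1 : ℕ) : ℝ)) * H₁) := by ring
  have h8 : δ / 2 * ((((H / H₁ + 1 : ℕ) : ℝ)) * H₁) ≤ δ / 2 * (2 * H) :=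
    mul_le_mul_of_nonneg_left h6 (by positivity)
  linarith

open Classical in
theorem residue (q : ℕ) (hq : 0 < q) (S : Finset ℕ) (z : ℝ) (hz : q * z ≤ S.card) : ∃ r : ℕ,
    z ≤ ((S.filter (fun s => s % q = r)).card : ℝ) := by
  obtain ⟨r, -, hr⟩ := Finset.exists_le_card_fiber_of_nsmul_le_card_of_maps_to (s := S)
    (t := range q) (f := fun s => s % q) (b := z) (fun a _ => mem_range.2 (Nat.mod_lt _ hq))
    ⟨0, mem_range.2 hq⟩ (by rw [card_range, nsmul_eq_mul]; exact hz)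
  exact ⟨r, hr⟩

/-- the blocks of consecutive primes with record gaps -/
def RB (c x : ℝ) (k n : ℕ) : Prop := (Nat.nth Nat.Prime (n + k) : ℝ) ≤ x ∧
      (∀ i < k, c * ff x ≤ (Nat.nth Nat.Prime (n + i + 1) : ℝ) - Nat.nth Nat.Prime (n + i))

theorem rb_finite (c x : ℝ) (k : ℕ) (Q : ℕ → Prop) : {n : ℕ | RB c x k n ∧ Q n}.Finite := by
  refine (Set.finite_Iic ⌊x⌋₊).subset ?_
  rintro n ⟨⟨h1, -⟩, -⟩
  refine Nat.le_floor (le_trans ?_ h1)
  have h2 : n + k ≤ Nat.nth Nat.Prime (n + k) :=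
    (Nat.nth_strictMono Nat.infinite_setOfPred_prime).le_apply
  exact_mod_cast (Nat.le_add_right n k).trans h2

theorem lt_of_step (a : ℕ → ℕ) (k : ℕ) (ha : ∀ i < k, a i < a (i + 1)) (i j : ℕ) (hij : i < j)
    (hj : j ≤ k) : a i < a j := by
  have h1 := ha i (by omega)
  have h2 := Pool.Agent.TH709.RGap.le_last a j (fun i hi => ha i (by omega)) (i + 1) (by omega)
  omega

open Classical in
theorem criterion (k : ℕ) (D : Set ℕ) (hD : FMin D) (δ : ℝ) (hδ : 0 < δ) : ∃ c : ℝ, 0 < c ∧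
    ∀ᶠ x : ℝ in atTop, ∀ (E : Set ℤ) (u : ℤ) (H : ℕ), ff x ≤ H →
    δ * H ≤ (((range H).filter (fun t : ℕ => u + t ∈ E)).card : ℝ) →
    x ^ (7 / 8 : ℝ) ≤ (Set.ncard {n : ℕ | RB c x k n ∧
      (∃ s : ℤ, ∀ i ≤ k, (Nat.nth Nat.Prime (n + i) : ℤ) + s ∈ E) ∧
      ∀ i j, i < j → j ≤ k → Nat.nth Nat.Prime (n + j) - Nat.nth Nat.Prime (n + i) ∈ D} : ℝ) := by
  obtain ⟨K, c₀, hc₀, heng⟩ := engineP k
  obtain ⟨κ, hκ, hκ1, hpair⟩ := pair D hD
  have hq : 0 < K.factorial := Nat.factorial_pos K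
  have hqr : (0 : ℝ) < K.factorial := by exact_mod_cast hq
  obtain ⟨γ, hγdef⟩ : ∃ γ : ℝ, γ = δ / (4 * K.factorial) := ⟨_, rfl⟩
  have hγ : 0 < γ := by
    rw [hγdef]
    positivity
  obtain ⟨M', hM'⟩ := exists_nat_ge (2 * K / γ)
  obtain ⟨M, hMdef⟩ : ∃ M : ℕ, M = M' + 1 := ⟨_, rfl⟩
  have hM0 : 0 < M := by omega
  have hMr : (0 : ℝ) < M := by exact_mod_cast hM0
  have hM : 2 * (K : ℝ) ≤ γ * M := by
    rw [div_le_iff₀ hγ] at hM'
    have h1 : (M' : ℝ) ≤ M := by
      rw [hMdef]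
      push_cast
      linarith
    nlinarith
  obtain ⟨γ', hγ'def⟩ : ∃ γ' : ℝ, γ' = κ ^ K * γ / (2 * (K + 1)) := ⟨_, rfl⟩
  have hγ' : 0 < γ' := by
    rw [hγ'def]
    positivity
  obtain ⟨L₀, hL₀⟩ := hpair γ' hγ' M
  obtain ⟨L₁, hL₁⟩ := exists_nat_ge (2 * K / (κ ^ K * γ))
  obtain ⟨c₁, hc₁def⟩ : ∃ c₁ : ℝ, c₁ = min c₀ 1 := ⟨_, rfl⟩
  have hc₁ : 0 < c₁ := by
    rw [hc₁def]
    exact lt_min hc₀ one_pos
  have hc₁a : c₁ ≤ c₀ := by
    rw [hc₁def]
    exact min_le_left _ _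
  have hc₁b : c₁ ≤ 1 := by
    rw [hc₁def]
    exact min_le_right _ _
  refine ⟨c₁ / (2 * M), by positivity, ?_⟩
  filter_upwards [heng (c₁ / (2 * M)), c1_ff_log ((L₀ + L₁ + 2) * M / c₁),
    Real.tendsto_log_atTop.eventually_ge_atTop 1] with x hx hffl hlog
  intro E u H hH hE
  -- the length of the blocks
  obtain ⟨L, hLdef⟩ : ∃ L : ℕ, L = ⌊c₁ * ff x / M⌋₊ := ⟨_, rfl⟩
  have hffx : ((L₀ : ℝ) + L₁ + 2) * M / c₁ ≤ ff x := by
    have h1 : ((L₀ : ℝ) + L₁ + 2) * M / c₁ * 1 ≤ ((L₀ : ℝ) + L₁ + 2) * M / c₁ * Real.log x :=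
      mul_le_mul_of_nonneg_left hlog (by positivity)
    linarith
  have hff0 : 0 < ff x := lt_of_lt_of_le (by positivity) hffx
  have hbig : (L₀ : ℝ) + L₁ + 2 ≤ c₁ * ff x / M := by
    rw [div_le_iff₀ hc₁] at hffx
    rw [le_div_iff₀ hMr]
    linarith
  have hLle : (L : ℝ) ≤ c₁ * ff x / M := by
    rw [hLdef]
    exact Nat.floor_le (by positivity)
  have hLgt : c₁ * ff x / M < L + 1 := by
    rw [hLdef]
    exact Nat.lt_floor_add_one _
  have hLL0 : L₀ ≤ L := by
    have h1 : (L₀ : ℝ) < L + 1 := by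
      have : (0 : ℝ) ≤ L₁ := Nat.cast_nonneg _
      linarith
    have h2 : L₀ < L + 1 := by exact_mod_cast h1
    omega
  have hLL1 : L₁ ≤ L := by
    have h1 : (L₁ : ℝ) < L + 1 := by
      have : (0 : ℝ) ≤ L₀ := Nat.cast_nonneg _
      linarith
    have h2 : L₁ < L + 1 := by exact_mod_cast h1
    omega
  have hL0 : 0 < L := by
    have h1 : (1 : ℝ) < L := by
      have : (0 : ℝ) ≤ L₀ := Nat.cast_nonneg _
      have : (0 : ℝ) ≤ L₁ := Nat.cast_nonneg _
      linarith
    have h2 : 1 < L := by exact_mod_cast h1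
    omega
  have hLr : (0 : ℝ) < L := by exact_mod_cast hL0
  have hLη : c₁ / (2 * M) * ff x ≤ L := by
    have h1 : (1 : ℝ) ≤ L := by exact_mod_cast hL0
    have h2 : c₁ / (2 * M) * ff x = c₁ * ff x / M / 2 := by
      field_simp
    rw [h2]
    linarith
  have hMLx : (M : ℝ) * L ≤ c₁ * ff x := by
    rw [le_div_iff₀ hMr] at hLle
    linarith
  have hMLH : M * L ≤ H := by
    have h1 : (M : ℝ) * L ≤ H := by
      refine hMLx.trans (le_trans ?_ hH)
      calc c₁ * ff x ≤ 1 * ff x := mul_le_mul_of_nonneg_right hc₁b hff0.le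
        _ = ff x := one_mul _
    exact_mod_cast h1
  -- a block of length `M L` where `E` is dense
  obtain ⟨b, hb⟩ := sub_block H (M * L) (Nat.mul_pos hM0 hL0) hMLH _ (filter_subset _ _) δ hδ hE
  set S₀ : Finset ℕ := (range (M * L)).filter (fun s : ℕ => u + (b * (M * L) + s : ℕ) ∈ E) with hS₀
  have hS₀c : δ / 2 * ((M * L : ℕ) : ℝ) ≤ S₀.card := by
    refine hb.trans ?_
    rw [Nat.cast_le]
    apply card_le_card_of_injOn (fun t => t - b * (M * L))
    · intro t ht
      rw [mem_coe, mem_filter, mem_filter, mem_Ico] at ht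
      obtain ⟨⟨-, h1⟩, h2, h3⟩ := ht
      rw [mem_coe, hS₀, mem_filter, mem_range]
      simp only
      refine ⟨by omega, ?_⟩
      rw [Nat.add_sub_cancel' h2]
      exact h1
    · intro t ht t' ht' htt
      rw [mem_coe, mem_filter, mem_filter, mem_Ico] at ht ht'
      simp only at htt
      have h2 := ht.2.1
      have h3 := ht'.2.1
      omega
  -- a residue class
  obtain ⟨r, hr⟩ := residue K.factorial hq S₀ (2 * γ * (M * L)) (by
    rw [hγdef]
    push_cast at hS₀c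
    calc (K.factorial : ℝ) * (2 * (δ / (4 * K.factorial)) * (M * L)) = δ / 2 * (M * L) := by
          field_simp
          ring
      _ ≤ S₀.card := hS₀c)
  set S : Finset ℕ := S₀.filter (fun s => s % K.factorial = r) with hS
  obtain ⟨g, hg1, hg2⟩ := dense_blocks K M L γ hγ hL0 hM S
    ((filter_subset _ _).trans (filter_subset _ _)) hr
  -- the clique
  obtain ⟨m₀, hm₀def⟩ : ∃ m₀ : ℕ, m₀ = ⌈γ' * L⌉₊ := ⟨_, rfl⟩
  have hm₀ : 0 < m₀ := by
    rw [hm₀def]
    exact Nat.ceil_pos.2 (by positivity)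
  have hm₀le : γ' * L ≤ m₀ := by
    rw [hm₀def]
    exact Nat.le_ceil _
  have hm₀lt : (m₀ : ℝ) ≤ γ' * L + 1 := by
    rw [hm₀def]
    exact (Nat.ceil_lt_add_one (by positivity)).le
  obtain ⟨y, hy1, hy2⟩ := clique κ hκ hκ1 m₀ hm₀ (fun a b => b - a ∈ D) K
    (fun i => S.filter (fun s => s ∈ Ico (g i * L) (g i * L + L)))
    (by
      intro i hi
      have h1 := (hg2 i hi).2
      have h2 : κ ^ K * (γ * L) ≤ κ ^ K *
          ((S.filter (fun s => s ∈ Ico (g i * L) (g i * L + L))).card : ℝ) :=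
        mul_le_mul_of_nonneg_left h1 (by positivity)
      refine le_trans ?_ h2
      have h3 : (K : ℝ) * m₀ ≤ K * (γ' * L + 1) := mul_le_mul_of_nonneg_left hm₀lt (Nat.cast_nonneg _)
      refine h3.trans ?_
      have h4 : (K : ℝ) * (γ' * L) ≤ κ ^ K * (γ * L) / 2 := by
        rw [hγ'def]
        have h5 : (K : ℝ) * (κ ^ K * γ / (2 * (K + 1)) * L) =
            (κ ^ K * (γ * L) / 2) * (K / (K + 1)) := by
          field_simp
        rw [h5]
        have h6 : (K : ℝ) / (K + 1) ≤ 1 := by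
          rw [div_le_one (by positivity)]
          linarith
        calc (κ ^ K * (γ * L) / 2) * ((K : ℝ) / (K + 1)) ≤ (κ ^ K * (γ * L) / 2) * 1 :=
              mul_le_mul_of_nonneg_left h6 (by positivity)
          _ = _ := mul_one _
      have h5 : (K : ℝ) ≤ κ ^ K * (γ * L) / 2 := by
        have h6 : (L₁ : ℝ) ≤ L := by exact_mod_cast hLL1
        have h7 := hL₁.trans h6
        rw [div_le_iff₀ (by positivity)] at h7
        linarith
      rw [mul_add, mul_one]
      linarith)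
    (by
      intro i j hij hj A' B' hA' hB' h1 h2
      have hgij := hg1 i j hij hj
      have hgj := (hg2 j hj).1
      have e1 : g i * L + L ≤ g j * L := by
        have : (g i + 1) * L ≤ g j * L := Nat.mul_le_mul_right _ (by omega)
        linarith
      have e2 : g j * L + L ≤ g i * L + M * L := by
        have h3 : (g j + 1) * L ≤ M * L := Nat.mul_le_mul_right _ (by omega)
        have h4 : (g j + 1) * L = g j * L + L := by ring
        omega
      have h3 := hL₀ L hLL0 (g i * L) (g j * L) e1 e2 A' B'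
        (fun s hs => (mem_filter.1 (hA' hs)).2) (fun s hs => (mem_filter.1 (hB' hs)).2)
        (hm₀le.trans (by exact_mod_cast h1)) (hm₀le.trans (by exact_mod_cast h2))
      exact h3)
  -- facts on `y`
  have hyS : ∀ i < K, y i ∈ S ∧ g i * L ≤ y i ∧ y i < g i * L + L := by
    intro i hi
    have h1 := mem_filter.1 (hy1 i hi)
    exact ⟨h1.1, (mem_Ico.1 h1.2).1, (mem_Ico.1 h1.2).2⟩
  have hyE : ∀ i < K, u + (b * (M * L) + y i : ℕ) ∈ E := by
    intro i hi
    have h1 := (mem_filter.1 (hyS i hi).1).1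
    rw [hS₀] at h1
    exact (mem_filter.1 h1).2
  have hyr : ∀ i < K, y i % K.factorial = r := fun i hi => (mem_filter.1 (hyS i hi).1).2
  have hylt : ∀ i < K, y i < M * L := by
    intro i hi
    have h1 := (mem_filter.1 (hyS i hi).1).1
    rw [hS₀] at h1
    exact mem_range.1 (mem_filter.1 h1).1
  have hysep : ∀ i j, i < j → j < K → y i + L ≤ y j := by
    intro i j hij hj
    have h1 := (hyS i (by omega)).2.2
    have h2 := (hyS j hj).2.1
    have h3 : (g i + 2) * L ≤ g j * L := Nat.mul_le_mul_right _ (hg1 i j hij hj)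
    have h4 : (g i + 2) * L = g i * L + L + L := by ring
    omega
  have hy0 : ∀ i < K, y 0 ≤ y i := by
    intro i hi
    rcases Nat.eq_zero_or_pos i with h | h
    · rw [h]
    · have := hysep 0 i h hi
      omega
  set pos : ℕ → ℕ := fun i => (y i - y 0) / K.factorial with hpos
  have hposy : ∀ i < K, K.factorial * pos i = y i - y 0 := by
    intro i hi
    rw [hpos]
    simp only
    apply Nat.mul_div_cancel'
    have h1 : y 0 % K.factorial = y i % K.factorial := by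
      rw [hyr i hi, hyr 0 (by omega)]
    exact (Nat.modEq_iff_dvd' (hy0 i hi)).1 h1
  have hres := hx pos (by
    intro i j hij hj
    have h1 := hysep i j hij hj
    have h2 := hposy i (by omega)
    have h3 := hposy j hj
    have h4 := hy0 i (by omega)
    have h5 := hy0 j hj
    constructor
    · by_contra hc
      push Not at hc
      have h6 : K.factorial * pos j ≤ K.factorial * pos i := Nat.mul_le_mul_left _ hc
      omega
    · have h6 : (K.factorial : ℝ) * ((pos j : ℝ) - pos i) = (y j : ℝ) - y i := by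
        have e2 : (K.factorial : ℝ) * pos i = (y i : ℝ) - y 0 := by
          rw [← Nat.cast_mul, h2, Nat.cast_sub h4]
        have e3 : (K.factorial : ℝ) * pos j = (y j : ℝ) - y 0 := by
          rw [← Nat.cast_mul, h3, Nat.cast_sub h5]
        rw [mul_sub, e2, e3]
        ring
      rw [h6]
      have h7 : ((y i + L : ℕ) : ℝ) ≤ y j := by exact_mod_cast h1
      push_cast at h7
      linarith) (by
    intro i hi
    have h2 := hposy i hi
    have h3 : (K.factorial : ℝ) * pos i ≤ M * L := by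
      rw [← Nat.cast_mul, h2]
      have h4 := hylt i hi
      have h5 : y i - y 0 ≤ M * L := by omega
      exact_mod_cast h5
    calc (K.factorial : ℝ) * pos i ≤ M * L := h3
      _ ≤ c₁ * ff x := hMLx
      _ ≤ c₀ * ff x := mul_le_mul_of_nonneg_right hc₁a hff0.le)
  refine hres.trans ?_
  rw [Nat.cast_le, ← Set.ncard_coe_finset]
  refine Set.ncard_le_ncard ?_ (rb_finite _ _ _ _)
  intro n hn
  rw [mem_coe, mem_filter] at hn
  obtain ⟨-, h1, h2, a, N, ha, hak, hform⟩ := hn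
  have haK : ∀ i ≤ k, a i < K := by
    intro i hi
    have := Pool.Agent.TH709.RGap.le_last a k ha i hi
    omega
  refine ⟨⟨h1, h2⟩, ⟨u + (b * (M * L) : ℕ) + y 0 - N, fun i hi => ?_⟩, fun i j hij hj => ?_⟩
  · rw [hform i hi, hposy _ (haK i hi)]
    have h3 := hyE _ (haK i hi)
    have h4 := hy0 _ (haK i hi)
    have h5 : (((N + (y (a i) - y 0) : ℕ) : ℤ)) + (u + (b * (M * L) : ℕ) + y 0 - N) =
        u + (b * (M * L) + y (a i) : ℕ) := by
      push_cast [Nat.cast_sub h4]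
      ring
    rw [h5]
    exact h3
  · rw [hform i (by omega), hform j hj, hposy _ (haK i (by omega)), hposy _ (haK j hj)]
    have h3 := hy2 (a i) (a j) (lt_of_step a k ha i j hij hj) (haK j hj)
    have h4 := hy0 _ (haK i (by omega))
    have h5 := hy0 _ (haK j hj)
    have h6 : N + (y (a j) - y 0) - (N + (y (a i) - y 0)) = y (a j) - y (a i) := by omega
    rw [h6]
    exact h3

end Pool.Agent.N914.WU
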