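import Pool.Agent.TH709.RGap.Engine

set_option autoImplicit false
set_option maxHeartbeats 4000000

/-!
# Consecutive record gaps at arbitrary positions (helper914)

A form of `Pool.Agent.TH709.RGap.engine` (helper709) for positions which are arbitrary multiples of
`K!`; from `Pool.Agent.TH101.RG.core` (helper101).
-/

namespace Pool.Agent.N914.WU

open Finset Filter
open Pool.Agent.H256R2.SC (ff)
open Pool.Agent.H312R2.RG

/-- `c` and `x` admissible for the positions `pos`: blocks of consecutive primes at the positions -/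
def PBlock (k K : ℕ) (η x : ℝ) (pos : ℕ → ℕ) (n : ℕ) : Prop :=
  (Nat.nth Nat.Prime (n + k) : ℝ) ≤ x ∧
      (∀ i < k, η * ff x ≤ (Nat.nth Nat.Prime (n + i + 1) : ℝ) - Nat.nth Nat.Prime (n + i)) ∧
      ∃ (a : ℕ → ℕ) (N : ℕ), (∀ i < k, a i < a (i + 1)) ∧ a k < K ∧
        ∀ i ≤ k, Nat.nth Nat.Prime (n + i) = N + K.factorial * pos (a i)

open Classical in
theorem engineP (k : ℕ) : ∃ K : ℕ, ∃ c₀ : ℝ, 0 < c₀ ∧ ∀ η : ℝ, ∀ᶠ x : ℝ in atTop,
    ∀ pos : ℕ → ℕ, (∀ i j, i < j → j < K → pos i < pos j ∧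
      η * ff x ≤ K.factorial * ((pos j : ℝ) - pos i)) →
    (∀ i < K, (K.factorial : ℝ) * pos i ≤ c₀ * ff x) →
    x ^ (7 / 8 : ℝ) ≤ (((Finset.range ⌊x⌋₊).filter (fun n : ℕ => PBlock k K η x pos n)).card : ℝ) := by
  obtain ⟨K, c0, hc0, hcore⟩ := Pool.Agent.TH101.RG.core (k + 1)
  refine ⟨K, c0 / 2, by positivity, fun η => ?_⟩
  have hKf : 0 < K.factorial := Nat.factorial_pos K
  have hKf0 : (0 : ℝ) < K.factorial := by exact_mod_cast hKf
  have tX : Tendsto (fun x : ℝ => x / 5) atTop atTop := tendsto_id.atTop_div_const (by norm_num)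
  filter_upwards [tX.eventually hcore,
    tX.eventually (ev_ff c0 hc0), Pool.Agent.H378R2.RGT.ff_half, c1_card,
    eventually_ge_atTop 10]
    with x e1 e3 e4 e5 e7
  set X : ℝ := x / 5 with hX
  have hx5 : x = 5 * X := by rw [hX]; ring
  obtain ⟨f1, f2, f3⟩ := e3
  set H : ℝ := c0 * ff X with hH
  have hH0 : 0 ≤ H := mul_nonneg hc0.le f2
  intro pos hsep hposH
  have hposlt : ∀ i j, i < j → j < K → pos i < pos j := fun i j hij hj => (hsep i j hij hj).1
  have hposinj : Set.InjOn pos (range K) := by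
    intro i hi j hj hij
    have hi' := mem_range.1 (mem_coe.1 hi)
    have hj' := mem_range.1 (mem_coe.1 hj)
    rcases lt_trichotomy i j with hlt | heq | hlt
    · have := hposlt i j hlt hj'
      omega
    · exact heq
    · have := hposlt j i hlt hi'
      omega
  set s : Finset ℕ := (range K).image pos with hs
  have hscard : s.card = K := by
    rw [hs, card_image_of_injOn hposinj, card_range]
  have hsle : ∀ l ∈ s, ((K.factorial * 1 * l : ℕ) : ℝ) ≤ H := by
    intro l hl
    obtain ⟨j, hj, rfl⟩ := mem_image.1 hl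
    have h1 := hposH j (mem_range.1 hj)
    push_cast
    rw [mul_one]
    calc (K.factorial : ℝ) * pos j ≤ c0 / 2 * ff x := h1
      _ = c0 * (ff x / 2) := by ring
      _ ≤ H := mul_le_mul_of_nonneg_left e4 hc0.le
  by_contra hcon
  push Not at hcon
  set Ch : Finset ℕ := (Finset.range ⌊x⌋₊).filter (fun n : ℕ => PBlock k K η x pos n) with hCh
  -- the bad set
  set B : ℕ := ⌊H⌋₊ with hB
  let bad : Finset ℕ := Ch.biUnion (fun n => Finset.Icc (Nat.nth Nat.Prime n - B) (Nat.nth Nat.Prime n))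
  have hBle : (B : ℝ) ≤ H := Nat.floor_le hH0
  have hbad : (bad.card : ℝ) ≤ X ^ (9 / 10 : ℝ) := by
    have h1 : bad.card ≤ ∑ n ∈ Ch, (B + 1) := by
      refine Finset.card_biUnion_le.trans (Finset.sum_le_sum fun n _ => ?_)
      rw [Nat.card_Icc]
      omega
    rw [Finset.sum_const, smul_eq_mul] at h1
    have h2 : (bad.card : ℝ) ≤ (Ch.card : ℝ) * ((B : ℝ) + 1) := by exact_mod_cast h1
    refine h2.trans (le_trans ?_ e5)
    apply mul_le_mul hcon.le _ (by positivity) (by positivity)
    linarith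
  obtain ⟨N, hN1, hN2, hNbad, hNr, hNs⟩ := e1 1 le_rfl s hscard (fun l hl => (hsle l hl).trans f1) bad hbad
  -- the index
  set n : ℕ := Nat.count Nat.Prime N with hn
  have hcount : n + (k + 1) ≤ Nat.count Nat.Prime (N + (B + 1)) := by
    rw [Nat.count_add, ← hn]
    apply Nat.add_le_add_left
    rw [Nat.count_eq_card_filter_range]
    refine hNr.trans ?_
    refine Finset.card_le_card_of_injOn (fun l => K.factorial * 1 * l) ?_ (fun i _ j _ hij =>
      Nat.eq_of_mul_eq_mul_left (Nat.mul_pos hKf one_pos) hij)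
    intro l hl
    rw [Finset.mem_coe, Finset.mem_filter] at hl
    rw [Finset.mem_coe, Finset.mem_filter, Finset.mem_range]
    refine ⟨?_, hl.2⟩
    have : K.factorial * 1 * l ≤ B := Nat.le_floor (hsle l hl.1)
    exact Nat.lt_succ_of_le this
  have hprime : ∀ i, (Nat.nth Nat.Prime i).Prime := fun i => Nat.prime_nth_prime i
  have hlo : ∀ i, N ≤ Nat.nth Nat.Prime (n + i) := by
    intro i
    have h1 : Nat.nth Nat.Prime n ≤ Nat.nth Nat.Prime (n + i) :=
      Nat.nth_monotone Nat.infinite_setOfPred_prime (Nat.le_add_right n i)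
    refine le_trans ?_ h1
    by_contra hc
    push Not at hc
    have h2 : Nat.count Nat.Prime (Nat.nth Nat.Prime n + 1) ≤ Nat.count Nat.Prime N :=
      Nat.count_monotone _ hc
    rw [Nat.count_succ, Nat.count_nth_of_infinite Nat.infinite_setOfPred_prime,
      if_pos (hprime n)] at h2
    omega
  have hhi : ∀ i, i ≤ k → Nat.nth Nat.Prime (n + i) ≤ N + B := by
    intro i hi
    have h1 : Nat.nth Nat.Prime (n + i) < N + (B + 1) := Nat.nth_lt_of_lt_count (by omega)
    omega
  have hform : ∀ i, ∃ a : ℕ, i ≤ k → a < K ∧ Nat.nth Nat.Prime (n + i) = N + K.factorial * pos a := by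
    intro i
    by_cases hi : i ≤ k
    · obtain ⟨u, hu⟩ := Nat.exists_eq_add_of_le (hlo i)
      have huB : u ≤ B := by
        have := hhi i hi
        omega
      have huH : (u : ℝ) ≤ H := le_trans (by exact_mod_cast huB) hBle
      have hp : (N + u).Prime := hu ▸ hprime (n + i)
      obtain ⟨l, hl, hlu⟩ := hNs (u : ℤ) (by
        rw [Int.cast_natCast, abs_of_nonneg (Nat.cast_nonneg _)]
        exact huH) (by
        have h1 : ((N : ℤ) + u).toNat = N + u := by
          rw [← Nat.cast_add, Int.toNat_natCast]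
        rw [h1]
        exact hp)
      obtain ⟨a, ha, rfl⟩ := mem_image.1 hl
      refine ⟨a, fun _ => ⟨mem_range.1 ha, ?_⟩⟩
      rw [hu]
      have h2 : u = K.factorial * 1 * pos a := by exact_mod_cast hlu
      rw [h2, mul_one]
    · exact ⟨0, fun h => absurd h hi⟩
  choose a ha using hform
  have hltn : ∀ i, Nat.nth Nat.Prime (n + i) < Nat.nth Nat.Prime (n + (i + 1)) := fun i =>
    Nat.nth_strictMono Nat.infinite_setOfPred_prime (by omega)
  have hamono : ∀ i < k, a i < a (i + 1) := by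
    intro i hi
    have h1 := ha i hi.le
    have h2 := ha (i + 1) hi
    by_contra hc
    push Not at hc
    have h3 : pos (a (i + 1)) ≤ pos (a i) := by
      rcases hc.eq_or_lt with heq | hlt
      · rw [heq]
      · exact (hposlt _ _ hlt h1.1).le
    have h4 := hltn i
    rw [h1.2, h2.2] at h4
    have h5 : K.factorial * pos (a (i + 1)) ≤ K.factorial * pos (a i) := Nat.mul_le_mul_left _ h3
    omega
  have hgaps : ∀ i < k, η * ff x ≤
      (Nat.nth Nat.Prime (n + i + 1) : ℝ) - Nat.nth Nat.Prime (n + i) := by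
    intro i hi
    rw [add_assoc n i 1, (ha i hi.le).2, (ha (i + 1) hi).2]
    push_cast
    have h1 := (hsep _ _ (hamono i hi) (ha (i + 1) hi).1).2
    linarith
  have hn_mem : n ∈ Ch := by
    rw [hCh, Finset.mem_filter, Finset.mem_range]
    refine ⟨?_, ?_, hgaps, a, N, hamono, (ha k le_rfl).1, fun i hi => (ha i hi).2⟩
    · have h1 : n ≤ N := Nat.count_le _
      have h2 : ((n + 1 : ℕ) : ℝ) ≤ x := by
        push_cast
        have : (n : ℝ) ≤ N := by exact_mod_cast h1
        linarith
      exact Nat.le_floor h2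
    · have h1 := hhi k le_rfl
      have h2 : (Nat.nth Nat.Prime (n + k) : ℝ) ≤ N + B := by exact_mod_cast h1
      linarith
  apply hNbad
  simp only [bad, Finset.mem_biUnion]
  refine ⟨n, hn_mem, ?_⟩
  rw [Finset.mem_Icc]
  have h1 := hlo 0
  have h2 := hhi 0 (Nat.zero_le _)
  rw [add_zero] at h1 h2
  omega

end Pool.Agent.N914.WU
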