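import Pool.Agent.N914.WU.Weyl

set_option autoImplicit false
set_option maxHeartbeats 4000000

/-!
# Sequences without linear correlations; polynomials (helper914)
-/

namespace Pool.Agent.N914.WU

open Finset
open scoped ComplexConjugate

/-- the sums of `ψ t e(t α)`, `t < N`, are `o(N)`, uniformly in `α` -/
def FU (ψ : ℕ → ℂ) : Prop := ∀ ε : ℝ, 0 < ε → ∃ N₀ : ℕ, ∀ N : ℕ, N₀ ≤ N → ∀ α : ℝ,
  ‖∑ t ∈ range N, ψ t * e (t * α)‖ ≤ ε * N

theorem FU.add {ψ φ : ℕ → ℂ} (h1 : FU ψ) (h2 : FU φ) : FU (fun t => ψ t + φ t) := by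
  intro ε hε
  obtain ⟨N₁, hN₁⟩ := h1 (ε / 2) (by positivity)
  obtain ⟨N₂, hN₂⟩ := h2 (ε / 2) (by positivity)
  refine ⟨max N₁ N₂, fun N hN α => ?_⟩
  have e1 := hN₁ N ((le_max_left _ _).trans hN) α
  have e2 := hN₂ N ((le_max_right _ _).trans hN) α
  simp only [add_mul, sum_add_distrib]
  refine (norm_add_le _ _).trans ?_
  linarith

theorem FU.zero : FU (fun _ => 0) := by
  intro ε hε
  refine ⟨0, fun N _ α => ?_⟩
  simp only [zero_mul, sum_const_zero, norm_zero]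
  positivity

theorem FU.smul {ψ : ℕ → ℂ} (c : ℂ) (h1 : FU ψ) : FU (fun t => c * ψ t) := by
  intro ε hε
  obtain ⟨N₁, hN₁⟩ := h1 (ε / (‖c‖ + 1)) (by positivity)
  refine ⟨N₁, fun N hN α => ?_⟩
  have e1 := hN₁ N hN α
  simp only [mul_assoc, ← mul_sum]
  rw [norm_mul]
  calc ‖c‖ * ‖∑ t ∈ range N, ψ t * e (t * α)‖ ≤ (‖c‖ + 1) * (ε / (‖c‖ + 1) * N) := by
        apply mul_le_mul _ e1 (norm_nonneg _) (by positivity)
        linarith
    _ = ε * N := by field_simp

theorem FU.limit {ψ : ℕ → ℂ} (h : ∀ ε : ℝ, 0 < ε → ∃ φ : ℕ → ℂ, FU φ ∧ ∀ t, ‖ψ t - φ t‖ ≤ ε) :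
    FU ψ := by
  intro ε hε
  obtain ⟨φ, hφ, hd⟩ := h (ε / 2) (by positivity)
  obtain ⟨N₁, hN₁⟩ := hφ (ε / 2) (by positivity)
  refine ⟨N₁, fun N hN α => ?_⟩
  have e1 := hN₁ N hN α
  have e2 : ∑ t ∈ range N, ψ t * e (t * α) = ∑ t ∈ range N, (ψ t - φ t) * e (t * α) +
      ∑ t ∈ range N, φ t * e (t * α) := by
    rw [← sum_add_distrib]
    refine sum_congr rfl fun t _ => ?_
    ring
  rw [e2]
  refine (norm_add_le _ _).trans ?_
  have e3 : ‖∑ t ∈ range N, (ψ t - φ t) * e (t * α)‖ ≤ ε / 2 * N := by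
    refine (norm_sum_le _ _).trans ?_
    calc ∑ t ∈ range N, ‖(ψ t - φ t) * e (t * α)‖ ≤ ∑ t ∈ range N, ε / 2 := by
          refine sum_le_sum fun t _ => ?_
          rw [norm_mul, norm_e, mul_one]
          exact hd t
      _ = ε / 2 * N := by
          rw [sum_const, card_range, nsmul_eq_mul]
          ring
  linarith

/-- splitting into residue classes -/
theorem sum_classes (F : ℕ → ℂ) (Q N : ℕ) :
    ∑ t ∈ range (Q * N), F t = ∑ u ∈ range Q, ∑ n ∈ range N, F (u + Q * n) := by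
  induction N with
  | zero => simp
  | succ N ih =>
    rw [Nat.mul_succ, sum_range_add, ih]
    simp only [sum_range_succ, sum_add_distrib]
    congr 1
    refine sum_congr rfl fun u _ => ?_
    rw [add_comm]

/-- the part of a polynomial with rational coefficients is periodic modulo one -/
theorem periodic_part (R : Polynomial ℝ) (hR : ∀ i, ¬ Irrational (R.coeff i)) : ∃ Q : ℕ, 0 < Q ∧
    ∀ u n : ℤ, ∃ k : ℤ, R.eval ((u + Q * n : ℤ) : ℝ) = R.eval (u : ℝ) + k := by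
  have h1 : ∀ i, ∃ q : ℚ, (q : ℝ) = R.coeff i := by
    intro i
    have := hR i
    unfold Irrational at this
    push Not at this
    exact this
  choose q hq using h1
  obtain ⟨Q, hQdef⟩ : ∃ Q : ℕ, Q = ∏ i ∈ range (R.natDegree + 1), (q i).den := ⟨_, rfl⟩
  have hQ : 0 < Q := by
    rw [hQdef]
    exact prod_pos fun i _ => (q i).den_pos
  have hQ0 : (Q : ℝ) ≠ 0 := by
    have : (0 : ℝ) < Q := by exact_mod_cast hQ
    exact this.ne'
  have h2 : Polynomial.C (Q : ℝ) * R ∈ Polynomial.lifts (Int.castRingHom ℝ) := by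
    rw [Polynomial.lifts_iff_coeff_lifts]
    intro i
    rw [Polynomial.coeff_C_mul]
    by_cases hi : i ≤ R.natDegree
    · have h3 : (q i).den ∣ Q := by
        rw [hQdef]
        exact dvd_prod_of_mem _ (mem_range.2 (by omega))
      obtain ⟨c, hc⟩ := h3
      refine ⟨(c : ℤ) * (q i).num, ?_⟩
      have h4 : (R.coeff i) = (q i).num / (q i).den := by
        rw [← hq i]
        exact_mod_cast (Rat.num_div_den (q i)).symm
      have h5 : ((q i).den : ℝ) ≠ 0 := by exact_mod_cast (q i).den_ne_zero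
      rw [h4, hc]
      simp only [eq_intCast]
      push_cast
      field_simp
    · refine ⟨0, ?_⟩
      rw [Polynomial.coeff_eq_zero_of_natDegree_lt (by omega)]
      simp
  obtain ⟨S, hS⟩ := h2
  rw [Polynomial.coe_mapRingHom] at hS
  have h3 : ∀ t : ℤ, (Q : ℝ) * R.eval (t : ℝ) = ((S.eval t : ℤ) : ℝ) := by
    intro t
    have h4 : (Polynomial.C (Q : ℝ) * R).eval (t : ℝ) = (S.map (Int.castRingHom ℝ)).eval (t : ℝ) := by
      rw [hS]
    rw [Polynomial.eval_mul, Polynomial.eval_C] at h4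
    rw [h4, Polynomial.eval_map]
    have h5 := Polynomial.eval₂_at_intCast (p := S) (Int.castRingHom ℝ) t
    simpa using h5
  refine ⟨Q, hQ, fun u n => ?_⟩
  obtain ⟨k, hk⟩ := Polynomial.sub_dvd_eval_sub (u + Q * n) u S
  refine ⟨n * k, ?_⟩
  have h6 : (Q : ℝ) * (R.eval ((u + Q * n : ℤ) : ℝ)) = Q * (R.eval (u : ℝ) + ((n * k : ℤ) : ℝ)) := by
    rw [h3, mul_add, h3]
    have h7 : S.eval (u + Q * n) = S.eval u + (Q : ℤ) * (n * k) := by
      have : u + Q * n - u = (Q : ℤ) * n := by ring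
      rw [this] at hk
      linear_combination hk
    rw [h7]
    push_cast
    ring
  exact mul_left_cancel₀ hQ0 h6

theorem fu_poly (R : Polynomial ℝ) (hR : ∃ i, 2 ≤ i ∧ Irrational (R.coeff i)) :
    FU (fun t => e (R.eval (t : ℝ))) := by
  classical
  -- the highest irrational coefficient
  obtain ⟨i₀, hi₀, hirr₀⟩ := hR
  have hi₀d : i₀ ≤ R.natDegree := by
    by_contra hc
    push Not at hc
    rw [Polynomial.coeff_eq_zero_of_natDegree_lt hc] at hirr₀
    exact hirr₀ ⟨0, by simp⟩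
  obtain ⟨m, hm⟩ : ∃ m, m = Nat.findGreatest (fun i => Irrational (R.coeff i)) R.natDegree := ⟨_, rfl⟩
  have hm1 : Irrational (R.coeff m) := by
    rw [hm]
    exact Nat.findGreatest_spec (P := fun i => Irrational (R.coeff i)) hi₀d hirr₀
  have hm2 : 2 ≤ m := by
    rw [hm]
    exact hi₀.trans (Nat.le_findGreatest hi₀d hirr₀)
  have hm3 : ∀ i, m < i → ¬ Irrational (R.coeff i) := by
    intro i hi hc
    by_cases hid : i ≤ R.natDegree
    · exact Nat.findGreatest_is_greatest (P := fun i => Irrational (R.coeff i)) (hm ▸ hi) hid hc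
    · rw [Polynomial.coeff_eq_zero_of_natDegree_lt (by omega)] at hc
      exact hc ⟨0, by simp⟩
  -- the two parts
  obtain ⟨R₁, hR₁⟩ : ∃ R₁ : Polynomial ℝ, R₁ = ∑ i ∈ range (m + 1), Polynomial.monomial i (R.coeff i) :=
    ⟨_, rfl⟩
  have hc1 : ∀ i, R₁.coeff i = if i < m + 1 then R.coeff i else 0 := by
    intro i
    rw [hR₁, Polynomial.finsetSum_coeff]
    simp only [Polynomial.coeff_monomial]
    rw [sum_ite_eq' (range (m + 1)) i]
    simp only [mem_range]
  have hdeg1 : R₁.natDegree ≤ m := by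
    rw [Polynomial.natDegree_le_iff_coeff_eq_zero]
    intro i hi
    rw [hc1, if_neg (by omega)]
  obtain ⟨Q, hQ, hper⟩ := periodic_part (R - R₁) (by
    intro i hc
    rw [Polynomial.coeff_sub, hc1] at hc
    by_cases hi : i < m + 1
    · rw [if_pos hi, sub_self] at hc
      exact hc ⟨0, by simp⟩
    · rw [if_neg hi, sub_zero] at hc
      exact hm3 i (by omega) hc)
  obtain ⟨d, rfl⟩ : ∃ d, m = d + 2 := ⟨m - 2, by omega⟩
  set β : ℝ := ((Q : ℤ) : ℝ) ^ (d + 2) * ((d + 2).factorial * R₁.coeff (d + 2)) with hβdef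
  have hβ : Irrational β := by
    rw [hβdef, hc1, if_pos (by omega), ← mul_assoc]
    have h1 : (((Q : ℤ) : ℝ) ^ (d + 2) * ((d + 2).factorial : ℝ)) =
        ((Q ^ (d + 2) * (d + 2).factorial : ℕ) : ℝ) := by
      push_cast
      rfl
    rw [h1]
    exact hm1.natCast_mul (Nat.mul_pos (Nat.pow_pos hQ) (Nat.factorial_pos _)).ne'
  have hIsP : ∀ (α : ℝ) (u : ℕ), IsP (d + 2) β
      (fun n : ℤ => R₁.eval ((Q * n + u : ℤ) : ℝ) + ((Q * n + u : ℤ) : ℝ) * α) := by
    intro α u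
    have h1 := IsP.affine Q u _ _ _ (IsP.poly (d + 2) R₁ hdeg1)
    have h2 : IsP 1 (1 * α) (fun n : ℤ => ((Q * n + u : ℤ) : ℝ) * (α / Q)) := by
      intro h x
      have hQ0 : (Q : ℝ) ≠ 0 := by
        have : (0 : ℝ) < Q := by exact_mod_cast hQ
        exact this.ne'
      push_cast
      field_simp
      ring
    have h3 : ∀ d' : ℕ, IsP (d' + 2) 0 (fun n : ℤ => ((Q * n + u : ℤ) : ℝ) * α) := by
      intro d'
      induction d' with
      | zero =>
        have h4 := IsP.succ_zero _ _ _ h2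
        have h5 := IsP.smul (Q : ℝ) _ _ _ h4
        have hQ0 : (Q : ℝ) ≠ 0 := by
          have : (0 : ℝ) < Q := by exact_mod_cast hQ
          exact this.ne'
        have h6 : (fun n : ℤ => (Q : ℝ) * (((Q * n + u : ℤ) : ℝ) * (α / Q))) =
            fun n : ℤ => ((Q * n + u : ℤ) : ℝ) * α := by
          funext n
          field_simp
        rw [h6, mul_zero] at h5
        exact h5
      | succ d' ih => exact IsP.succ_zero _ _ _ ih
    have h4 := IsP.add _ _ _ _ _ h1 (h3 d)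
    rw [add_zero] at h4
    exact h4
  intro ε hε
  obtain ⟨N₀, hN₀⟩ := weyl (d + 1) β hβ (ε / 2) (by positivity)
  obtain ⟨N₁, hN₁⟩ := exists_nat_ge (2 * Q / ε)
  refine ⟨max (Q * (N₀ + 1)) N₁, fun N hN α => ?_⟩
  have hNa : Q * (N₀ + 1) ≤ N := (le_max_left _ _).trans hN
  have hNb : N₁ ≤ N := (le_max_right _ _).trans hN
  obtain ⟨N', hN'⟩ : ∃ N', N' = N / Q := ⟨_, rfl⟩
  have hN'0 : N₀ ≤ N' := by
    have h1 : N₀ + 1 ≤ N' := by
      rw [hN', Nat.le_div_iff_mul_le hQ, mul_comm]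
      exact hNa
    omega
  obtain ⟨ρ, hρ⟩ : ∃ ρ, ρ = N % Q := ⟨_, rfl⟩
  have hsplit : N = Q * N' + ρ := by
    rw [hN', hρ]
    exact (Nat.div_add_mod N Q).symm
  have hρQ : ρ < Q := by
    rw [hρ]
    exact Nat.mod_lt _ hQ
  have hterm : ∀ u n : ℕ, e (R.eval ((u + Q * n : ℕ) : ℝ)) * e (((u + Q * n : ℕ) : ℝ) * α) =
      e ((R - R₁).eval (u : ℝ)) *
        e (R₁.eval ((Q * n + u : ℤ) : ℝ) + ((Q * n + u : ℤ) : ℝ) * α) := by
    intro u n
    obtain ⟨k, hk⟩ := hper u n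
    have h1 : ((u + Q * n : ℕ) : ℝ) = ((Q * n + u : ℤ) : ℝ) := by
      push_cast
      ring
    have h2 : R.eval ((u + Q * n : ℕ) : ℝ) =
        (R - R₁).eval (u : ℝ) + k + R₁.eval ((Q * n + u : ℤ) : ℝ) := by
      have h3 : (R - R₁).eval ((u + Q * n : ℤ) : ℝ) =
          R.eval ((u + Q * n : ℕ) : ℝ) - R₁.eval ((Q * n + u : ℤ) : ℝ) := by
        rw [Polynomial.eval_sub]
        have h4 : ((u + Q * n : ℤ) : ℝ) = ((u + Q * n : ℕ) : ℝ) := by push_cast; rfl
        have h5 : ((u + Q * n : ℤ) : ℝ) = ((Q * n + u : ℤ) : ℝ) := by push_cast; ring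
        nth_rewrite 1 [h4]
        rw [h5]
      rw [hk] at h3
      push_cast at h3 ⊢
      linarith
    rw [h2, h1, e_add, e_add, e_add, e_int]
    ring
  have hbound : ‖∑ t ∈ range (Q * N'), e (R.eval (t : ℝ)) * e (t * α)‖ ≤ ε / 2 * (Q * N') := by
    rw [sum_classes]
    simp only [hterm, ← mul_sum]
    refine (norm_sum_le _ _).trans ?_
    calc ∑ u ∈ range Q, ‖e ((R - R₁).eval (u : ℝ)) * ∑ n ∈ range N',
          e (R₁.eval ((Q * n + u : ℤ) : ℝ) + ((Q * n + u : ℤ) : ℝ) * α)‖ ≤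
          ∑ u ∈ range Q, ε / 2 * N' := by
          refine sum_le_sum fun u _ => ?_
          rw [norm_mul, norm_e, one_mul]
          exact hN₀ N' hN'0 _ (hIsP α u)
      _ = ε / 2 * (Q * N') := by
          rw [sum_const, card_range, nsmul_eq_mul]
          ring
  rw [hsplit, sum_range_add]
  refine (norm_add_le _ _).trans ?_
  have hrest : ‖∑ t ∈ range ρ, e (R.eval ((Q * N' + t : ℕ) : ℝ)) * e (((Q * N' + t : ℕ) : ℝ) * α)‖ ≤
      Q := by
    refine (norm_sum_le _ _).trans ?_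
    calc ∑ t ∈ range ρ, ‖e (R.eval ((Q * N' + t : ℕ) : ℝ)) * e (((Q * N' + t : ℕ) : ℝ) * α)‖ =
          ∑ t ∈ range ρ, (1 : ℝ) := by
          refine sum_congr rfl fun t _ => ?_
          rw [norm_mul, norm_e, norm_e, one_mul]
      _ = ρ := by rw [sum_const, card_range, nsmul_eq_mul, mul_one]
      _ ≤ Q := by exact_mod_cast hρQ.le
  have h3 : (Q : ℝ) ≤ ε / 2 * N := by
    have h4 : (N₁ : ℝ) ≤ N := by exact_mod_cast hNb
    have h5 := hN₁.trans h4
    rw [div_le_iff₀ hε] at h5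
    linarith
  have h6 : (Q : ℝ) * N' ≤ N := by
    rw [hsplit]
    push_cast
    have : (0 : ℝ) ≤ ρ := Nat.cast_nonneg _
    linarith
  have h7 : ε / 2 * ((Q : ℝ) * N') ≤ ε / 2 * N := mul_le_mul_of_nonneg_left h6 (by positivity)
  have h8 : ε * ((Q * N' + ρ : ℕ) : ℝ) = ε / 2 * N + ε / 2 * N := by
    rw [← hsplit]
    ring
  rw [h8]
  linarith

end Pool.Agent.N914.WU
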