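import Pool.Agent.N914.WU.Torus

set_option autoImplicit false
set_option maxHeartbeats 4000000

/-!
# Differences of dense sets (helper914)
-/

namespace Pool.Agent.N914.WU

open Finset
open scoped ComplexConjugate

theorem orth (N : ℕ) (hN : 0 < N) (j : ℤ) :
    ∑ k ∈ range N, e (k * ((j : ℝ) / N)) = if (N : ℤ) ∣ j then (N : ℂ) else 0 := by
  have hN0 : (N : ℝ) ≠ 0 := by
    have : (0 : ℝ) < N := by exact_mod_cast hN
    exact this.ne'
  simp only [e_nat_mul]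
  split_ifs with h
  · obtain ⟨c, hc⟩ := h
    have h1 : e ((j : ℝ) / N) = 1 := by
      rw [e_eq_one_iff]
      refine ⟨c, ?_⟩
      rw [hc]
      push_cast
      field_simp
    simp only [h1, one_pow, sum_const, card_range, nsmul_eq_mul, mul_one]
  · have h1 : e ((j : ℝ) / N) ≠ 1 := by
      intro hc
      obtain ⟨c, hc⟩ := (e_eq_one_iff _).1 hc
      apply h
      refine ⟨c, ?_⟩
      rw [div_eq_iff hN0] at hc
      have : (j : ℝ) = ((c * N : ℤ) : ℝ) := by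
        rw [hc]
        push_cast
        ring
      have h2 : j = c * N := by exact_mod_cast this
      rw [h2, mul_comm]
    rw [geom_sum_eq h1, ← e_nat_mul]
    have h2 : (N : ℝ) * ((j : ℝ) / N) = ((j : ℤ) : ℝ) := by field_simp
    rw [h2, e_int, sub_self, zero_div]

theorem parseval (N : ℕ) (hN : 0 < N) (A : Finset ℕ)
    (hA : ∀ a ∈ A, ∀ b ∈ A, (N : ℤ) ∣ (a : ℤ) - b → a = b) :
    ∑ k ∈ range N, ‖∑ a ∈ A, e (k * ((a : ℝ) / N))‖ ^ 2 = N * A.card := by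
  have h1 : ((∑ k ∈ range N, ‖∑ a ∈ A, e (k * ((a : ℝ) / N))‖ ^ 2 : ℝ) : ℂ) = N * A.card := by
    push_cast
    have h2 : ∀ k : ℕ, ((‖∑ a ∈ A, e (k * ((a : ℝ) / N))‖ : ℂ)) ^ 2 =
        ∑ a ∈ A, ∑ b ∈ A, e (k * ((((a : ℤ) - b : ℤ) : ℝ) / N)) := by
      intro k
      rw [← Complex.mul_conj', map_sum, sum_mul_sum]
      refine sum_congr rfl fun a _ => sum_congr rfl fun b _ => ?_
      rw [← e_sub]
      congr 1
      push_cast
      ring
    simp only [h2]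
    rw [sum_comm]
    have h3 : ∀ a ∈ A, ∑ k ∈ range N, ∑ b ∈ A, e (k * ((((a : ℤ) - b : ℤ) : ℝ) / N)) = N := by
      intro a ha
      rw [sum_comm]
      simp only [orth N hN]
      have h4 : ∀ b ∈ A, (if (N : ℤ) ∣ (a : ℤ) - b then (N : ℂ) else 0) = if a = b then (N : ℂ) else 0 := by
        intro b hb
        by_cases hab : a = b
        · subst hab
          simp
        · rw [if_neg hab, if_neg (fun h => hab (hA a ha b hb h))]
      rw [sum_congr rfl h4, sum_ite_eq A a, if_pos ha]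
    rw [sum_congr rfl h3, sum_const, nsmul_eq_mul, mul_comm]
  exact_mod_cast h1

theorem bilinear (N : ℕ) (hN : 0 < N) (A B W : Finset ℕ) (φ : ℕ → ℂ) (Φ : ℝ)
    (hA : ∀ a ∈ A, ∀ b ∈ A, (N : ℤ) ∣ (a : ℤ) - b → a = b)
    (hB : ∀ a ∈ B, ∀ b ∈ B, (N : ℤ) ∣ (a : ℤ) - b → a = b)
    (hW : ∀ a ∈ A, ∀ b ∈ B, a ≤ b ∧ b - a ∈ W)
    (hd : ∀ a ∈ A, ∀ b ∈ B, ∀ t ∈ W, (N : ℤ) ∣ (b : ℤ) - a - t → b - a = t)
    (hΦ : ∀ α : ℝ, ‖∑ t ∈ W, φ t * e (t * α)‖ ≤ Φ) :
    ‖∑ a ∈ A, ∑ b ∈ B, φ (b - a)‖ ≤ Φ * Real.sqrt (A.card * B.card) := by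
  have hNr : (0 : ℝ) < N := by exact_mod_cast hN
  have hΦ0 : 0 ≤ Φ := (norm_nonneg _).trans (hΦ 0)
  have h1 : (N : ℂ) * ∑ a ∈ A, ∑ b ∈ B, φ (b - a) = ∑ k ∈ range N,
      (∑ t ∈ W, φ t * e (t * (-(k : ℝ) / N))) * ((∑ b ∈ B, e (k * ((b : ℝ) / N))) *
        conj (∑ a ∈ A, e (k * ((a : ℝ) / N)))) := by
    have h2 : ∀ k : ℕ, (∑ t ∈ W, φ t * e (t * (-(k : ℝ) / N))) * ((∑ b ∈ B, e (k * ((b : ℝ) / N))) *
        conj (∑ a ∈ A, e (k * ((a : ℝ) / N)))) =
        ∑ a ∈ A, ∑ b ∈ B, ∑ t ∈ W, φ t * e (k * ((((b : ℤ) - a - t : ℤ) : ℝ) / N)) := by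
      intro k
      rw [map_sum, mul_comm (∑ b ∈ B, _), sum_mul_sum, mul_comm, sum_mul]
      refine sum_congr rfl fun a _ => ?_
      rw [sum_mul]
      refine sum_congr rfl fun b _ => ?_
      rw [mul_sum]
      refine sum_congr rfl fun t _ => ?_
      have h3 : (k : ℝ) * ((((b : ℤ) - a - t : ℤ) : ℝ) / N) =
          k * ((b : ℝ) / N) - k * ((a : ℝ) / N) + t * (-(k : ℝ) / N) := by
        push_cast
        ring
      rw [h3, e_add, e_sub]
      ring
    simp only [h2]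
    rw [mul_sum, sum_comm (s := range N) (t := A)]
    refine sum_congr rfl fun a ha => ?_
    rw [mul_sum, sum_comm (s := range N) (t := B)]
    refine sum_congr rfl fun b hb => ?_
    rw [sum_comm]
    simp only [← mul_sum, orth N hN]
    have h4 : ∀ t ∈ W, φ t * (if (N : ℤ) ∣ (b : ℤ) - a - t then (N : ℂ) else 0) =
        if b - a = t then φ t * N else 0 := by
      intro t ht
      by_cases hbt : b - a = t
      · have h5 : (b : ℤ) - a - t = 0 := by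
          have := (hW a ha b hb).1
          omega
        rw [h5, if_pos (dvd_zero _), if_pos hbt]
      · rw [if_neg hbt, if_neg (fun h => hbt (hd a ha b hb t ht h)), mul_zero]
    rw [sum_congr rfl h4, sum_ite_eq W (b - a), if_pos (hW a ha b hb).2, mul_comm]
  have h5 : (N : ℝ) * ‖∑ a ∈ A, ∑ b ∈ B, φ (b - a)‖ ≤ N * (Φ * Real.sqrt (A.card * B.card)) := by
    rw [← Complex.norm_natCast N, ← norm_mul, h1, Complex.norm_natCast]
    refine (norm_sum_le _ _).trans ?_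
    calc ∑ k ∈ range N, ‖(∑ t ∈ W, φ t * e (t * (-(k : ℝ) / N))) *
          ((∑ b ∈ B, e (k * ((b : ℝ) / N))) * conj (∑ a ∈ A, e (k * ((a : ℝ) / N))))‖ ≤
        ∑ k ∈ range N, Φ * (‖∑ b ∈ B, e (k * ((b : ℝ) / N))‖ * ‖∑ a ∈ A, e (k * ((a : ℝ) / N))‖) := by
          refine sum_le_sum fun k _ => ?_
          rw [norm_mul, norm_mul, Complex.norm_conj]
          exact mul_le_mul_of_nonneg_right (hΦ _) (by positivity)
      _ = Φ * ∑ k ∈ range N, ‖∑ b ∈ B, e (k * ((b : ℝ) / N))‖ *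
            ‖∑ a ∈ A, e (k * ((a : ℝ) / N))‖ := by rw [← mul_sum]
      _ ≤ Φ * (Real.sqrt (∑ k ∈ range N, ‖∑ b ∈ B, e (k * ((b : ℝ) / N))‖ ^ 2) *
            Real.sqrt (∑ k ∈ range N, ‖∑ a ∈ A, e (k * ((a : ℝ) / N))‖ ^ 2)) := by
          apply mul_le_mul_of_nonneg_left _ hΦ0
          exact Real.sum_mul_le_sqrt_mul_sqrt _ _ _
      _ = N * (Φ * Real.sqrt (A.card * B.card)) := by
          rw [parseval N hN B hB, parseval N hN A hA, ← Real.sqrt_mul (by positivity)]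
          have h6 : (N : ℝ) * B.card * (N * A.card) = N ^ 2 * (A.card * B.card) := by ring
          rw [h6, Real.sqrt_mul (by positivity), Real.sqrt_sq hNr.le]
          ring
  exact le_of_mul_le_mul_left h5 hNr

theorem FU.upto {φ : ℕ → ℂ} (h : FU φ) (ε : ℝ) (hε : 0 < ε) : ∃ N₀ : ℕ, ∀ H : ℕ, N₀ ≤ H →
    ∀ w : ℕ, w ≤ H → ∀ α : ℝ, ‖∑ t ∈ range w, φ t * e (t * α)‖ ≤ ε * H := by
  obtain ⟨N₁, hN₁⟩ := h ε hε
  obtain ⟨N₂, hN₂⟩ := exists_nat_ge ((∑ t ∈ range N₁, ‖φ t‖) / ε)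
  refine ⟨N₂, fun H hH w hw α => ?_⟩
  by_cases hwN : N₁ ≤ w
  · refine (hN₁ w hwN α).trans ?_
    have : (w : ℝ) ≤ H := by exact_mod_cast hw
    exact mul_le_mul_of_nonneg_left this hε.le
  · push Not at hwN
    refine (norm_sum_le _ _).trans ?_
    calc ∑ t ∈ range w, ‖φ t * e (t * α)‖ = ∑ t ∈ range w, ‖φ t‖ := by
          refine sum_congr rfl fun t _ => ?_
          rw [norm_mul, norm_e, mul_one]
      _ ≤ ∑ t ∈ range N₁, ‖φ t‖ :=
          sum_le_sum_of_subset_of_nonneg (range_subset_range.2 hwN.le) fun t _ _ => norm_nonneg _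
      _ ≤ ε * H := by
          have h1 : (N₂ : ℝ) ≤ H := by exact_mod_cast hH
          have h2 := hN₂.trans h1
          rw [div_le_iff₀ hε] at h2
          linarith

open Classical in
theorem pair (D : Set ℕ) (hD : FMin D) : ∃ κ : ℝ, 0 < κ ∧ κ ≤ 1 ∧ ∀ (γ : ℝ) (_ : 0 < γ) (R : ℕ),
    ∃ L₀ : ℕ, ∀ L : ℕ, L₀ ≤ L → ∀ u v : ℕ, u + L ≤ v → v + L ≤ u + R * L →
    ∀ A B : Finset ℕ, A ⊆ Ico u (u + L) → B ⊆ Ico v (v + L) → γ * L ≤ A.card → γ * L ≤ B.card →
    κ * (A.card * B.card) ≤ (((A ×ˢ B).filter (fun p => p.2 - p.1 ∈ D)).card : ℝ) := by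
  obtain ⟨ψ, κ, hκ, hψ1, hψD, hFU⟩ := hD
  have hκ1 : κ ≤ 1 + 1 := by
    by_contra hc
    push Not at hc
    -- the mean of `ψ` is `κ` and `ψ ≤ 1`
    obtain ⟨N₀, hN₀⟩ := hFU (1 / 2) (by norm_num)
    have h1 := hN₀ (N₀ + 1) (by omega) 0
    simp only [mul_zero, e_zero, mul_one] at h1
    have h2 : ∑ t ∈ range (N₀ + 1), ((ψ t : ℂ) - κ) =
        ((∑ t ∈ range (N₀ + 1), (ψ t - κ) : ℝ) : ℂ) := by push_cast; rfl
    rw [h2, Complex.norm_real, Real.norm_eq_abs] at h1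
    have h3 : ∑ t ∈ range (N₀ + 1), (ψ t - κ) ≤ ∑ t ∈ range (N₀ + 1), (-1 : ℝ) :=
      sum_le_sum fun t _ => by linarith [hψ1 t]
    rw [sum_const, card_range, nsmul_eq_mul] at h3
    have h4 := neg_abs_le (∑ t ∈ range (N₀ + 1), (ψ t - κ))
    have h5 : (0 : ℝ) < (N₀ + 1 : ℕ) := by exact_mod_cast Nat.succ_pos _
    linarith
  refine ⟨κ / 2, by positivity, by linarith, fun γ hγ R => ?_⟩
  obtain ⟨N₀, hN₀⟩ := hFU.upto (κ * γ / (4 * (R + 1))) (by positivity)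
  refine ⟨max N₀ 1, fun L hL u v huv hvR A B hAu hBv hAc hBc => ?_⟩
  have hL0 : 0 < L := lt_of_lt_of_le one_pos ((le_max_right _ _).trans hL)
  have hLN : N₀ ≤ (R + 1) * L := by
    have h1 : N₀ ≤ L := (le_max_left _ _).trans hL
    have h2 : 1 * L ≤ (R + 1) * L := Nat.mul_le_mul_right _ (by omega)
    omega
  have hmA : ∀ a ∈ A, u ≤ a ∧ a < u + L := fun a ha => mem_Ico.1 (hAu ha)
  have hmB : ∀ b ∈ B, v ≤ b ∧ b < v + L := fun b hb => mem_Ico.1 (hBv hb)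
  have hsmall : ∀ z : ℤ, ((2 * L : ℕ) : ℤ) ∣ z → |z| < 2 * L → z = 0 := by
    intro z hz hlt
    exact Int.eq_zero_of_abs_lt_dvd hz (by push_cast; exact hlt)
  set w₁ : ℕ := v - u - L with hw₁
  set w₂ : ℕ := v - u + L with hw₂
  have hbil := bilinear (2 * L) (by omega) A B (Ico w₁ w₂) (fun t => (ψ t : ℂ) - κ)
    (2 * (κ * γ / (4 * (R + 1)) * (((R + 1) * L : ℕ) : ℝ)))
    (by
      intro a ha b hb h
      have h1 := hmA a ha
      have h2 := hmA b hb
      have h3 := hsmall _ h (by rw [abs_lt]; constructor <;> omega)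
      omega)
    (by
      intro a ha b hb h
      have h1 := hmB a ha
      have h2 := hmB b hb
      have h3 := hsmall _ h (by rw [abs_lt]; constructor <;> omega)
      omega)
    (by
      intro a ha b hb
      have h1 := hmA a ha
      have h2 := hmB b hb
      refine ⟨by omega, ?_⟩
      rw [mem_Ico]
      constructor <;> omega)
    (by
      intro a ha b hb t ht h
      have h1 := hmA a ha
      have h2 := hmB b hb
      rw [mem_Ico] at ht
      have h3 := hsmall _ h (by rw [abs_lt]; constructor <;> omega)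
      omega)
    (by
      intro α
      have h1 : w₁ ≤ w₂ := by omega
      have h2 : w₂ ≤ (R + 1) * L := by
        have : (R + 1) * L = R * L + L := by ring
        omega
      rw [sum_Ico_eq_sub _ h1]
      refine (norm_sub_le _ _).trans ?_
      have h3 := hN₀ _ hLN w₂ h2 α
      have h4 := hN₀ _ hLN w₁ (h1.trans h2) α
      linarith)
  have h1 : ∑ a ∈ A, ∑ b ∈ B, ((ψ (b - a) : ℂ) - κ) =
      ((∑ a ∈ A, ∑ b ∈ B, (ψ (b - a) - κ) : ℝ) : ℂ) := by push_cast; rfl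
  rw [h1, Complex.norm_real, Real.norm_eq_abs] at hbil
  have h2 : ∑ a ∈ A, ∑ b ∈ B, (ψ (b - a) - κ) = ∑ a ∈ A, ∑ b ∈ B, ψ (b - a) -
      κ * (A.card * B.card) := by
    simp only [sum_sub_distrib, sum_const, nsmul_eq_mul]
    ring
  have h3 : ∑ a ∈ A, ∑ b ∈ B, ψ (b - a) ≤
      (((A ×ˢ B).filter (fun p => p.2 - p.1 ∈ D)).card : ℝ) := by
    rw [← sum_product', card_filter]
    push_cast
    refine sum_le_sum fun p _ => ?_
    split_ifs with h
    · exact hψ1 _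
    · exact hψD _ h
  have h4 : 2 * (κ * γ / (4 * (R + 1)) * (((R + 1) * L : ℕ) : ℝ)) = κ / 2 * (γ * L) := by
    push_cast
    have : ((R : ℝ) + 1) ≠ 0 := by positivity
    field_simp
    ring
  rw [h4] at hbil
  have h5 : κ / 2 * (γ * L) * Real.sqrt (A.card * B.card) ≤ κ / 2 * (A.card * B.card) := by
    have h6 : γ * L ≤ Real.sqrt (A.card * B.card) := by
      apply Real.le_sqrt_of_sq_le
      rw [sq]
      exact mul_le_mul hAc hBc (by positivity) (by positivity)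
    have h7 := Real.mul_self_sqrt (show (0 : ℝ) ≤ A.card * B.card by positivity)
    calc κ / 2 * (γ * L) * Real.sqrt (A.card * B.card) ≤
          κ / 2 * Real.sqrt (A.card * B.card) * Real.sqrt (A.card * B.card) := by
          apply mul_le_mul_of_nonneg_right _ (Real.sqrt_nonneg _)
          exact mul_le_mul_of_nonneg_left h6 (by positivity)
      _ = κ / 2 * (A.card * B.card) := by rw [mul_assoc, h7]
  have h8 := neg_abs_le (∑ a ∈ A, ∑ b ∈ B, (ψ (b - a) - κ))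
  linarith

end Pool.Agent.N914.WU
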