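import Pool.Agent.N914.WU.Crit

set_option autoImplicit false
set_option maxHeartbeats 4000000

/-!
# Polynomials at record gaps (helper914)
-/

namespace Pool.Agent.N914.WU

open Finset Filter
open Pool.Agent.H256R2.SC (ff)
open Pool.Agent.H312R2.RG

theorem dist_circle (x y ε : ℝ) (h : dist (x : AddCircle (1 : ℝ)) (y : AddCircle (1 : ℝ)) < ε) :
    ∃ m : ℤ, |x - y - m| < ε := by
  rw [dist_eq_norm, ← AddCircle.coe_sub, UnitAddCircle.norm_eq] at h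
  exact ⟨round (x - y), h⟩

open Classical in
/-- prescribed fractional parts of polynomials at the differences of the primes of a block -/
theorem poly_gaps (k r : ℕ) (P : Fin r → Polynomial ℝ)
    (hP : ∀ h : Fin r → ℤ, h ≠ 0 → ∃ i, 2 ≤ i ∧ Irrational ((∑ l, (h l : ℝ) • P l).coeff i))
    (ε : ℝ) (hε : 0 < ε) (δ : ℝ) (hδ : 0 < δ) : ∃ c : ℝ, 0 < c ∧
    ∀ᶠ x : ℝ in atTop, ∀ (θ : Fin r → ℝ) (E : Set ℤ) (u : ℤ) (H : ℕ), ff x ≤ H →
    δ * H ≤ (((range H).filter (fun t : ℕ => u + t ∈ E)).card : ℝ) →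
    x ^ (7 / 8 : ℝ) ≤ (Set.ncard {n : ℕ | RB c x k n ∧
      (∃ s : ℤ, ∀ i ≤ k, (Nat.nth Nat.Prime (n + i) : ℤ) + s ∈ E) ∧
      ∀ i j, i < j → j ≤ k → ∀ l, ∃ m : ℤ,
        |(P l).eval ((Nat.nth Nat.Prime (n + j) : ℝ) - Nat.nth Nat.Prime (n + i)) - θ l - m| < ε} :
        ℝ) := by
  obtain ⟨T, -, hTf, hT⟩ := finite_cover_balls_of_compact
    (isCompact_univ (X := UnitAddTorus (Fin r))) (half_pos hε)
  have h1 : ∀ z : UnitAddTorus (Fin r), ∃ c : ℝ, 0 < c ∧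
    ∀ᶠ x : ℝ in atTop, ∀ (E : Set ℤ) (u : ℤ) (H : ℕ), ff x ≤ H →
    δ * H ≤ (((range H).filter (fun t : ℕ => u + t ∈ E)).card : ℝ) →
    x ^ (7 / 8 : ℝ) ≤ (Set.ncard {n : ℕ | RB c x k n ∧
      (∃ s : ℤ, ∀ i ≤ k, (Nat.nth Nat.Prime (n + i) : ℤ) + s ∈ E) ∧
      ∀ i j, i < j → j ≤ k → Nat.nth Nat.Prime (n + j) - Nat.nth Nat.Prime (n + i) ∈
        {t | dist (pt P t) z < ε / 2}} : ℝ) := fun z =>
    criterion k _ (fmin_poly P hP z (ε / 2) (half_pos hε)) δ hδ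
  choose c hc hx using h1
  -- the smallest constant
  obtain ⟨c', hc', hcle⟩ : ∃ c' : ℝ, 0 < c' ∧ ∀ z ∈ T, c' ≤ c z := by
    by_cases hne : T.Nonempty
    · obtain ⟨z₀, hz₀, hmin⟩ := hTf.exists_minimalFor c T hne
      refine ⟨c z₀, hc z₀, fun z hz => ?_⟩
      rcases le_total (c z₀) (c z) with h | h
      · exact h
      · exact hmin hz h
    · rw [Set.not_nonempty_iff_eq_empty] at hne
      subst hne
      exact ⟨1, one_pos, fun z hz => absurd hz (Set.notMem_empty _)⟩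
  refine ⟨c', hc', ?_⟩
  have hev : ∀ᶠ x : ℝ in atTop, ∀ z ∈ T, ∀ (E : Set ℤ) (u : ℤ) (H : ℕ), ff x ≤ H →
    δ * H ≤ (((range H).filter (fun t : ℕ => u + t ∈ E)).card : ℝ) →
    x ^ (7 / 8 : ℝ) ≤ (Set.ncard {n : ℕ | RB (c z) x k n ∧
      (∃ s : ℤ, ∀ i ≤ k, (Nat.nth Nat.Prime (n + i) : ℤ) + s ∈ E) ∧
      ∀ i j, i < j → j ≤ k → Nat.nth Nat.Prime (n + j) - Nat.nth Nat.Prime (n + i) ∈
        {t | dist (pt P t) z < ε / 2}} : ℝ) := (Set.Finite.eventually_all hTf).2 fun z _ => hx z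
  filter_upwards [hev, c1_ff_log 0] with x hxx hff0 θ E u H hH hE
  rw [zero_mul] at hff0
  -- the point of the net
  obtain ⟨z, hz, hzθ⟩ : ∃ z ∈ T, dist (fun l => ((θ l : ℝ) : AddCircle (1 : ℝ))) z < ε / 2 := by
    have h2 := hT (Set.mem_univ (fun l => ((θ l : ℝ) : AddCircle (1 : ℝ))))
    simp only [Set.mem_iUnion, Metric.mem_ball] at h2
    obtain ⟨z, hz, h3⟩ := h2
    exact ⟨z, hz, h3⟩
  refine (hxx z hz E u H hH hE).trans ?_
  rw [Nat.cast_le]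
  refine Set.ncard_le_ncard ?_ (rb_finite _ _ _ _)
  rintro n ⟨⟨h2, h3⟩, h4, h5⟩
  refine ⟨⟨h2, fun i hi => ?_⟩, h4, fun i j hij hj l => ?_⟩
  · refine le_trans ?_ (h3 i hi)
    exact mul_le_mul_of_nonneg_right (hcle z hz) hff0
  · have h6 := h5 i j hij hj
    have h7 : dist (pt P (Nat.nth Nat.Prime (n + j) - Nat.nth Nat.Prime (n + i)))
        (fun l => ((θ l : ℝ) : AddCircle (1 : ℝ))) < ε := by
      refine lt_of_le_of_lt (dist_triangle _ z _) ?_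
      rw [dist_comm z]
      linarith
    have h8 := (dist_pi_lt_iff hε).1 h7 l
    have h9 : Nat.nth Nat.Prime (n + i) ≤ Nat.nth Nat.Prime (n + j) :=
      Nat.nth_monotone Nat.infinite_setOfPred_prime (by omega)
    obtain ⟨m, hm⟩ := dist_circle _ _ _ h8
    rw [Nat.cast_sub h9] at hm
    exact ⟨m, hm⟩

end Pool.Agent.N914.WU
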