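import Mathlib

set_option autoImplicit false

/-!
# Weyl sums, uniformly in the terms of lower degree (helper914)
-/

namespace Pool.Agent.N914.WU

open Finset
open scoped ComplexConjugate

/-- `e(t) = exp(2 π i t)` -/
noncomputable def e (t : ℝ) : ℂ := (Real.fourierChar t : ℂ)

theorem e_add (s t : ℝ) : e (s + t) = e s * e t := by
  unfold e
  rw [AddChar.map_add_eq_mul, Circle.coe_mul]

theorem e_zero : e 0 = 1 := by
  unfold e
  rw [AddChar.map_zero_eq_one, Circle.coe_one]

theorem norm_e (t : ℝ) : ‖e t‖ = 1 := Circle.norm_coe _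

theorem e_neg (t : ℝ) : e (-t) = conj (e t) := by
  unfold e
  rw [AddChar.map_neg_eq_inv, Circle.coe_inv_eq_conj]

theorem e_sub (s t : ℝ) : e (s - t) = e s * conj (e t) := by
  rw [sub_eq_add_neg, e_add, e_neg]

theorem e_eq (t : ℝ) : e t = Complex.exp (2 * Real.pi * t * Complex.I) := by
  unfold e
  rw [Real.fourierChar_apply]
  push_cast
  rfl

theorem e_eq_one_iff (t : ℝ) : e t = 1 ↔ ∃ n : ℤ, t = n := by
  rw [e_eq, Complex.exp_eq_one_iff]
  constructor
  · rintro ⟨n, hn⟩
    refine ⟨n, ?_⟩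
    have h1 : (2 * Real.pi * Complex.I : ℂ) * t = (2 * Real.pi * Complex.I) * n := by
      linear_combination hn
    have h2 : (2 * Real.pi * Complex.I : ℂ) ≠ 0 := Complex.two_pi_I_ne_zero
    have h3 : (t : ℂ) = n := mul_left_cancel₀ h2 h1
    exact_mod_cast h3
  · rintro ⟨n, rfl⟩
    refine ⟨n, ?_⟩
    push_cast
    ring

theorem e_int (n : ℤ) : e n = 1 := (e_eq_one_iff _).2 ⟨n, rfl⟩

theorem e_nat_mul (n : ℕ) (t : ℝ) : e (n * t) = e t ^ n := by
  induction n with
  | zero => rw [Nat.cast_zero, zero_mul, pow_zero, e_zero]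
  | succ n ih => rw [Nat.cast_succ, add_mul, one_mul, e_add, ih, pow_succ]

/-- functions on the integers that behave like real polynomials of degree at most `d` with the
coefficient `β / d!` in degree `d` -/
def IsP : ℕ → ℝ → (ℤ → ℝ) → Prop
  | 0, β, f => ∀ x, f x = β
  | d + 1, β, f => ∀ h : ℤ, IsP d (h * β) (fun x => f (x + h) - f x)

theorem IsP.affine (q : ℤ) (s : ℤ) : ∀ (d : ℕ) (β : ℝ) (f : ℤ → ℝ), IsP d β f →
    IsP d ((q : ℝ) ^ d * β) (fun x => f (q * x + s)) := by
  intro d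
  induction d with
  | zero =>
    intro β f hf x
    rw [pow_zero, one_mul]
    exact hf _
  | succ d ih =>
    intro β f hf h
    have h1 := ih _ _ (hf (q * h))
    have h2 : (q : ℝ) ^ d * (((q * h : ℤ) : ℝ) * β) = h * ((q : ℝ) ^ (d + 1) * β) := by
      push_cast
      ring
    rw [h2] at h1
    have h3 : (fun x : ℤ => f (q * x + s + q * h) - f (q * x + s)) =
        (fun x : ℤ => f (q * (x + h) + s) - f (q * x + s)) := by
      funext x
      congr 2
      ring
    rw [h3] at h1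
    exact h1

theorem IsP.shift (s : ℤ) (d : ℕ) (β : ℝ) (f : ℤ → ℝ) (hf : IsP d β f) :
    IsP d β (fun x => f (x + s)) := by
  have h1 := IsP.affine 1 s d β f hf
  simpa using h1

theorem IsP.add : ∀ (d : ℕ) (β β' : ℝ) (f f' : ℤ → ℝ), IsP d β f → IsP d β' f' →
    IsP d (β + β') (fun x => f x + f' x) := by
  intro d
  induction d with
  | zero =>
    intro β β' f f' hf hf' x
    simp only
    rw [hf x, hf' x]
  | succ d ih =>
    intro β β' f f' hf hf' h
    have h1 := ih _ _ _ _ (hf h) (hf' h)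
    have h2 : (fun x : ℤ => f (x + h) - f x + (f' (x + h) - f' x)) =
        fun x => f (x + h) + f' (x + h) - (f x + f' x) := by
      funext x
      ring
    rw [h2, ← mul_add] at h1
    exact h1

theorem IsP.smul (c : ℝ) : ∀ (d : ℕ) (β : ℝ) (f : ℤ → ℝ), IsP d β f →
    IsP d (c * β) (fun x => c * f x) := by
  intro d
  induction d with
  | zero =>
    intro β f hf x
    simp only
    rw [hf x]
  | succ d ih =>
    intro β f hf h
    have h1 := ih _ _ (hf h)
    have h2 : (fun x : ℤ => c * (f (x + h) - f x)) = fun x => c * f (x + h) - c * f x := by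
      funext x
      ring
    rw [h2, show c * (h * β) = h * (c * β) by ring] at h1
    exact h1

/-- adding a constant -/
theorem IsP.add_const (c : ℝ) (d : ℕ) (β : ℝ) (f : ℤ → ℝ) (hf : IsP (d + 1) β f) :
    IsP (d + 1) β (fun x => f x + c) := by
  intro h
  have h1 := hf h
  have h2 : (fun x : ℤ => f (x + h) - f x) = fun x => f (x + h) + c - (f x + c) := by
    funext x
    ring
  rw [h2] at h1
  exact h1

/-- adding a function of lower degree -/
theorem IsP.succ_zero : ∀ (d : ℕ) (β : ℝ) (f : ℤ → ℝ), IsP d β f → IsP (d + 1) 0 f := by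
  intro d
  induction d with
  | zero =>
    intro β f hf h x
    simp only
    rw [hf, hf, sub_self, mul_zero]
  | succ d ih =>
    intro β f hf h
    have h1 := ih _ _ (hf h)
    rw [mul_zero]
    exact h1

theorem IsP.mul_id : ∀ (d : ℕ) (β : ℝ) (f : ℤ → ℝ), IsP d β f →
    IsP (d + 1) ((d + 1) * β) (fun x => x * f x) := by
  intro d
  induction d with
  | zero =>
    intro β f hf h x
    simp only
    rw [hf, hf]
    push_cast
    ring
  | succ d ih =>
    intro β f hf h
    have h1 := ih _ _ (hf h)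
    have h2 := IsP.smul (h : ℝ) _ _ _ (IsP.shift h _ _ _ hf)
    have h3 := IsP.add _ _ _ _ _ h1 h2
    have h4 : (fun x : ℤ => (x : ℝ) * (f (x + h) - f x) + h * f (x + h)) =
        fun x => ((x + h : ℤ) : ℝ) * f (x + h) - x * f x := by
      funext x
      push_cast
      ring
    rw [h4] at h3
    have h5 : ((d : ℝ) + 1) * (h * β) + h * β = h * ((((d + 1 : ℕ) : ℝ) + 1) * β) := by
      push_cast
      ring
    rw [h5] at h3
    exact h3

theorem IsP.poly : ∀ (d : ℕ) (P : Polynomial ℝ), P.natDegree ≤ d →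
    IsP d (d.factorial * P.coeff d) (fun x => P.eval (x : ℝ)) := by
  intro d
  induction d with
  | zero =>
    intro P hP x
    simp only
    rw [Polynomial.eq_C_of_natDegree_le_zero hP]
    simp
  | succ d ih =>
    intro P hP
    have h1 := ih P.divX (by
      rw [Polynomial.natDegree_divX_eq_natDegree_tsub_one]
      omega)
    have h2 := IsP.add_const (P.coeff 0) _ _ _ (IsP.mul_id _ _ _ h1)
    rw [Polynomial.coeff_divX] at h2
    have h3 : (fun x : ℤ => (x : ℝ) * P.divX.eval (x : ℝ) + P.coeff 0) =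
        fun x : ℤ => P.eval (x : ℝ) := by
      funext x
      conv_rhs => rw [← Polynomial.divX_mul_X_add P]
      simp
      ring
    rw [h3] at h2
    have h4 : ((d : ℝ) + 1) * (d.factorial * P.coeff (d + 1)) =
        ((d + 1).factorial : ℝ) * P.coeff (d + 1) := by
      rw [Nat.factorial_succ]
      push_cast
      ring
    rw [h4] at h2
    exact h2

/-- shifting a sum -/
theorem sum_shift (F : ℤ → ℂ) (hF : ∀ x, ‖F x‖ ≤ 1) (N h : ℕ) :
    ‖∑ x ∈ range N, F x - ∑ x ∈ range N, F (x + h)‖ ≤ 2 * h := by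
  induction h with
  | zero => simp
  | succ h ih =>
    have h1 : ∑ x ∈ range N, F (x + h) - ∑ x ∈ range N, F (x + (h + 1 : ℕ)) =
        F h - F (N + h) := by
      have h2 := sum_range_succ (fun x : ℕ => F (x + h)) N
      have h3 := sum_range_succ' (fun x : ℕ => F (x + h)) N
      rw [h2] at h3
      have h4 : ∑ x ∈ range N, F (((x + 1 : ℕ) : ℤ) + h) = ∑ x ∈ range N, F (x + (h + 1 : ℕ)) := by
        refine sum_congr rfl fun x _ => ?_
        congr 1
        push_cast
        ring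
      rw [h4] at h3
      have h5 : F (((0 : ℕ) : ℤ) + h) = F h := by simp
      rw [h5] at h3
      linear_combination h3
    have h6 : ∑ x ∈ range N, F x - ∑ x ∈ range N, F (x + (h + 1 : ℕ)) =
        (∑ x ∈ range N, F x - ∑ x ∈ range N, F (x + h)) + (F h - F (N + h)) := by
      rw [← h1]
      ring
    rw [h6]
    refine (norm_add_le _ _).trans ?_
    have h7 : ‖F h - F (N + h)‖ ≤ 2 := (norm_sub_le _ _).trans (by linarith [hF h, hF (N + h)])
    push_cast
    linarith

/-- the inequality of van der Corput -/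
theorem vdc (F : ℤ → ℂ) (hF : ∀ x, ‖F x‖ ≤ 1) (N M : ℕ) (δ : ℝ) (hδ : 0 ≤ δ)
    (hc : ∀ h : ℕ, 1 ≤ h → h < M → ∀ s : ℕ,
      ‖∑ x ∈ range N, F (x + s + h) * conj (F (x + s))‖ ≤ δ * N) :
    M * ‖∑ x ∈ range N, F x‖ ≤ M ^ 2 + N * Real.sqrt (M + M ^ 2 * δ) := by
  set S : ℂ := ∑ x ∈ range N, F x with hS
  -- averaging over shifts
  have h1 : ‖(M : ℂ) * S - ∑ h ∈ range M, ∑ x ∈ range N, F (x + h)‖ ≤ M ^ 2 := by
    have h2 : (M : ℂ) * S - ∑ h ∈ range M, ∑ x ∈ range N, F (x + h) =
        ∑ h ∈ range M, (S - ∑ x ∈ range N, F (x + h)) := by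
      rw [sum_sub_distrib, sum_const, card_range, nsmul_eq_mul]
    rw [h2]
    refine (norm_sum_le _ _).trans ?_
    calc ∑ h ∈ range M, ‖S - ∑ x ∈ range N, F (x + h)‖ ≤ ∑ h ∈ range M, 2 * (h : ℝ) :=
          sum_le_sum fun h _ => sum_shift F hF N h
      _ = 2 * ((∑ h ∈ range M, h : ℕ) : ℝ) := by
          rw [← mul_sum]
          push_cast
          rfl
      _ ≤ M ^ 2 := by
          have h3 := Finset.sum_range_id_mul_two M
          have h4 : (∑ h ∈ range M, h) * 2 ≤ M ^ 2 := by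
            rw [h3, sq]
            exact Nat.mul_le_mul_left _ (Nat.sub_le _ _)
          have h5 : (((∑ h ∈ range M, h) * 2 : ℕ) : ℝ) ≤ ((M ^ 2 : ℕ) : ℝ) := by exact_mod_cast h4
          rw [Nat.cast_mul, Nat.cast_pow] at h5
          push_cast at h5 ⊢
          linarith
  -- Cauchy-Schwarz
  have hpair : ∀ a ∈ range M, ∀ b ∈ range M, b < a →
      ‖∑ x ∈ range N, F (x + a) * conj (F (x + b))‖ ≤ δ * N := by
    intro a ha b _ hba
    have h2 := hc (a - b) (by omega) (by
      have := mem_range.1 ha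
      omega) b
    have h3 : ∀ x : ℕ, ((x : ℤ) + b + (a - b : ℕ)) = x + a := by
      intro x
      rw [Nat.cast_sub hba.le]
      ring
    simpa only [h3] using h2
  have h5 : ∑ x ∈ range N, ‖∑ h ∈ range M, F (x + h)‖ ^ 2 ≤ N * (M + M ^ 2 * δ) := by
    have h6 : ((∑ x ∈ range N, ‖∑ h ∈ range M, F (x + h)‖ ^ 2 : ℝ) : ℂ) =
        ∑ a ∈ range M, ∑ b ∈ range M, ∑ x ∈ range N, F (x + a) * conj (F (x + b)) := by
      push_cast
      have h7 : ∀ x : ℕ, ((‖∑ h ∈ range M, F (x + h)‖ : ℂ)) ^ 2 =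
          ∑ a ∈ range M, ∑ b ∈ range M, F (x + a) * conj (F (x + b)) := by
        intro x
        rw [← Complex.mul_conj', map_sum, sum_mul_sum]
      simp only [h7]
      rw [sum_comm]
      refine sum_congr rfl fun a _ => ?_
      rw [sum_comm]
    have h8 : ∑ x ∈ range N, ‖∑ h ∈ range M, F (x + h)‖ ^ 2 =
        ‖∑ a ∈ range M, ∑ b ∈ range M, ∑ x ∈ range N, F (x + a) * conj (F (x + b))‖ := by
      rw [← h6, Complex.norm_real, Real.norm_of_nonneg]
      exact sum_nonneg fun x _ => sq_nonneg _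
    rw [h8]
    refine (norm_sum_le _ _).trans ?_
    have h9 : ∀ a ∈ range M, ‖∑ b ∈ range M, ∑ x ∈ range N, F (x + a) * conj (F (x + b))‖ ≤
        N + M * (δ * N) := by
      intro a ha
      refine (norm_sum_le _ _).trans ?_
      have h10 : ∀ b ∈ range M, ‖∑ x ∈ range N, F (x + a) * conj (F (x + b))‖ ≤
          (if b = a then (N : ℝ) else 0) + δ * N := by
        intro b hb
        have hδN : 0 ≤ δ * N := mul_nonneg hδ (Nat.cast_nonneg _)
        rcases lt_trichotomy b a with hlt | heq | hlt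
        · rw [if_neg hlt.ne, zero_add]
          exact hpair a ha b hb hlt
        · rw [if_pos heq]
          have h11 : ‖∑ x ∈ range N, F (x + a) * conj (F (x + b))‖ ≤ ∑ x ∈ range N, (1 : ℝ) := by
            refine (norm_sum_le _ _).trans (sum_le_sum fun x _ => ?_)
            rw [norm_mul, Complex.norm_conj]
            exact mul_le_one₀ (hF _) (norm_nonneg _) (hF _)
          rw [sum_const, card_range, nsmul_eq_mul, mul_one] at h11
          linarith
        · rw [if_neg hlt.ne', zero_add]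
          have h11 := hpair b hb a ha hlt
          rw [← Complex.norm_conj, map_sum] at h11
          simp only [map_mul, Complex.conj_conj] at h11
          simpa only [mul_comm] using h11
      refine (sum_le_sum h10).trans ?_
      rw [sum_add_distrib, sum_ite_eq' (range M) a, if_pos ha, sum_const, card_range, nsmul_eq_mul]
    refine (sum_le_sum h9).trans ?_
    rw [sum_const, card_range, nsmul_eq_mul]
    apply le_of_eq
    ring
  have h12 : ‖∑ h ∈ range M, ∑ x ∈ range N, F (x + h)‖ ≤ N * Real.sqrt (M + M ^ 2 * δ) := by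
    rw [sum_comm]
    refine (norm_sum_le _ _).trans ?_
    rw [← pow_le_pow_iff_left₀ (sum_nonneg fun x _ => norm_nonneg _) (by positivity) two_ne_zero]
    have h13 := sq_sum_le_card_mul_sum_sq (s := range N) (f := fun x : ℕ => ‖∑ h ∈ range M, F (x + h)‖)
    rw [card_range] at h13
    refine h13.trans ?_
    rw [mul_pow, Real.sq_sqrt (by positivity)]
    calc (N : ℝ) * ∑ x ∈ range N, ‖∑ h ∈ range M, F (x + h)‖ ^ 2 ≤ N * (N * (M + M ^ 2 * δ)) :=
          mul_le_mul_of_nonneg_left h5 (Nat.cast_nonneg _)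
      _ = (N : ℝ) ^ 2 * (M + M ^ 2 * δ) := by ring
  have h14 : (M : ℝ) * ‖S‖ = ‖(M : ℂ) * S‖ := by
    rw [norm_mul, Complex.norm_natCast]
  rw [h14]
  calc ‖(M : ℂ) * S‖ = ‖((M : ℂ) * S - ∑ h ∈ range M, ∑ x ∈ range N, F (x + h)) +
        ∑ h ∈ range M, ∑ x ∈ range N, F (x + h)‖ := by rw [sub_add_cancel]
    _ ≤ _ := (norm_add_le _ _).trans (add_le_add h1 h12)

/-- geometric sums -/
theorem geom (β : ℝ) (hβ : Irrational β) (N : ℕ) (c : ℝ) :
    ‖∑ x ∈ range N, e (c + x * β)‖ ≤ 2 / ‖e β - 1‖ := by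
  have h0 : e β ≠ 1 := by
    intro h
    obtain ⟨n, hn⟩ := (e_eq_one_iff β).1 h
    exact hβ ⟨n, by rw [hn]; simp⟩
  have h1 : ∑ x ∈ range N, e (c + x * β) = e c * ((e β ^ N - 1) / (e β - 1)) := by
    rw [← geom_sum_eq h0, mul_sum]
    refine sum_congr rfl fun x _ => ?_
    rw [e_add, e_nat_mul]
  rw [h1, norm_mul, norm_e, one_mul, norm_div]
  apply div_le_div_of_nonneg_right _ (norm_nonneg _)
  refine (norm_sub_le _ _).trans ?_
  rw [norm_pow, norm_e, one_pow, norm_one]
  norm_num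

theorem weyl : ∀ (d : ℕ) (β : ℝ), Irrational β → ∀ ε : ℝ, 0 < ε → ∃ N₀ : ℕ, ∀ N : ℕ, N₀ ≤ N →
    ∀ f : ℤ → ℝ, IsP (d + 1) β f → ‖∑ x ∈ range N, e (f x)‖ ≤ ε * N := by
  intro d
  induction d with
  | zero =>
    intro β hβ ε hε
    obtain ⟨N₀, hN₀⟩ := exists_nat_ge (2 / ‖e β - 1‖ / ε)
    refine ⟨N₀, fun N hN f hf => ?_⟩
    have h1 : ∀ x : ℕ, f x = f 0 + x * β := by
      intro x
      have h2 := hf x 0
      simp only [zero_add] at h2
      rw [Int.cast_natCast] at h2
      linarith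
    simp only [h1]
    refine (geom β hβ N (f 0)).trans ?_
    have h3 : (N₀ : ℝ) ≤ N := by exact_mod_cast hN
    have h4 : 2 / ‖e β - 1‖ / ε ≤ N := hN₀.trans h3
    rw [div_le_iff₀ hε] at h4
    linarith
  | succ d ih =>
    intro β hβ ε hε
    obtain ⟨M, hM⟩ := exists_nat_ge (8 / ε ^ 2 + 1)
    have hM0 : (0 : ℝ) < M := lt_of_lt_of_le (by positivity) hM
    have hM0' : 0 < M := by exact_mod_cast hM0
    have hirr : ∀ h : ℕ, 1 ≤ h → Irrational (((h : ℤ) : ℝ) * β) := by
      intro h hh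
      rw [Int.cast_natCast]
      exact hβ.natCast_mul (by omega)
    have h1 : ∀ h : ℕ, ∃ N₀ : ℕ, 1 ≤ h → ∀ N : ℕ, N₀ ≤ N → ∀ f : ℤ → ℝ,
        IsP (d + 1) (((h : ℤ) : ℝ) * β) f → ‖∑ x ∈ range N, e (f x)‖ ≤ ε ^ 2 / 8 * N := by
      intro h
      by_cases hh : 1 ≤ h
      · obtain ⟨N₀, hN₀⟩ := ih _ (hirr h hh) (ε ^ 2 / 8) (by positivity)
        exact ⟨N₀, fun _ => hN₀⟩
      · exact ⟨0, fun h' => absurd h' hh⟩
    choose N₀ hN₀ using h1
    obtain ⟨N₁, hN₁⟩ := exists_nat_ge (2 * M / ε)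
    refine ⟨max N₁ ((range M).sup N₀), fun N hN f hf => ?_⟩
    have hN1 : N₁ ≤ N := (le_max_left _ _).trans hN
    have hN2 : ∀ h < M, N₀ h ≤ N := fun h hh =>
      (Finset.le_sup (f := N₀) (mem_range.2 hh)).trans ((le_max_right _ _).trans hN)
    have h2 := vdc (fun x => e (f x)) (fun x => (norm_e _).le) N M (ε ^ 2 / 8) (by positivity)
      (by
        intro h h1 h2 s
        have h3 := hN₀ h h1 N (hN2 h h2) _ (IsP.shift s _ _ _ (hf h))
        simp only [e_sub] at h3
        exact h3)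
    have h3 : Real.sqrt (M + M ^ 2 * (ε ^ 2 / 8)) ≤ M * (ε / 2) := by
      rw [Real.sqrt_le_left (by positivity)]
      have h4 : 8 / ε ^ 2 ≤ M := by linarith
      rw [div_le_iff₀ (by positivity)] at h4
      nlinarith [mul_le_mul_of_nonneg_left h4 hM0.le]
    have h5 : (M : ℝ) ≤ ε / 2 * N := by
      have h6 : (N₁ : ℝ) ≤ N := by exact_mod_cast hN1
      have h7 := hN₁.trans h6
      rw [div_le_iff₀ hε] at h7
      linarith
    have h8 : (M : ℝ) * ‖∑ x ∈ range N, e (f x)‖ ≤ M * (ε * N) := by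
      calc (M : ℝ) * ‖∑ x ∈ range N, e (f x)‖ ≤ M ^ 2 + N * Real.sqrt (M + M ^ 2 * (ε ^ 2 / 8)) := h2
        _ ≤ M * (ε / 2 * N) + N * (M * (ε / 2)) := by
            apply add_le_add
            · rw [sq]
              exact mul_le_mul_of_nonneg_left h5 hM0.le
            · exact mul_le_mul_of_nonneg_left h3 (Nat.cast_nonneg _)
        _ = M * (ε * N) := by ring
    exact le_of_mul_le_mul_left h8 hM0

end Pool.Agent.N914.WU
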